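import Pool.Agent.Run7.h172.Npp.PDd
import Pool.Agent.Helper44K9.FU.Push
import Pool.Agent.Helper44K9.FU.Tk
import Pool.Agent.Helper44K9.FU.Chb
import Pool.Agent.Run7.h824.Nls.GR

/-! # Piece PD -/

set_option autoImplicit false

namespace Pool.Agent.Run7.h172.Npp

open Finset Polynomial MeasureTheory Filter Topology
open Pool.Agent.H807R2.Dav (ee)
open Pool.Agent.Helper44K9.FU (W Mul1 Rel dil S_PUSH S_BES2 S_CHB)

/-- **[PD]** -/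
theorem pd_of (hPUSH : S_PUSH) (hBES : S_BES2) (hCHB : S_CHB) (hG : Pool.Agent.NH21.Nls.S_G) : S_PD := by
  classical
  -- reduction to `ε ≤ 1`
  suffices hmain : ∀ d : ℕ, 1 ≤ d → ∀ ε : ℝ, 0 < ε → ε ≤ 1 → ∃ c : ℝ, 0 < c ∧ ∃ K : ℕ, 1 ≤ K ∧ ∀ k0 : ℕ, ∃ k1 : ℕ, ∀ T : ℕ,
      ∃ H N0 : ℕ, 1 ≤ H ∧ ∀ N ≥ N0, ∀ f : ℕ → ℂ, Mul1 f → ∀ (P : ℕ → ℝ[X]) (B : Finset ℕ), B ⊆ Icc 1 N →
      ε * N ≤ (B.card : ℝ) → (∀ n ∈ B, (P n).natDegree ≤ d ∧ ε * H ≤ ‖W f (P n) n H‖) →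
      ∃ k h : ℕ, k0 ≤ k ∧ k < k1 ∧ T ≤ h ∧ ∃ (α : ℕ → ℝ) (p0 p1 : ℕ), p0 ∈ QB k ∧ p1 ∈ QB k ∧ p0 ≠ p1 ∧
        ∃ W ⊆ QB k, p0 ∉ W ∧ p1 ∉ W ∧ c * ((QB k).card : ℝ) ≤ (W.card : ℝ) ∧
        (∀ p ∈ W, ∃ n ∈ B, α p = (P n).coeff d) ∧
        ∀ p ∈ W, Rel d K h ((p0 : ℝ) ^ d * α p) ((p : ℝ) ^ d * α p0) ∧
          Rel d K h ((p1 : ℝ) ^ d * α p) ((p : ℝ) ^ d * α p1) by
    intro d hd ε hε
    obtain ⟨c, hc, K, hK, h1⟩ := hmain d hd (min ε 1) (lt_min hε one_pos) (min_le_right _ _)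
    refine ⟨c, hc, K, hK, fun k0 => ?_⟩
    obtain ⟨k1, h2⟩ := h1 k0
    refine ⟨k1, fun T => ?_⟩
    obtain ⟨H, N0, hH, h3⟩ := h2 T
    refine ⟨H, N0, hH, fun N hN f hf P B hB hBc hBP => h3 N hN f hf P B hB ?_ fun n hn => ⟨(hBP n hn).1, ?_⟩⟩
    · exact le_trans (mul_le_mul_of_nonneg_right (min_le_left _ _) (Nat.cast_nonneg _)) hBc
    · exact le_trans (mul_le_mul_of_nonneg_right (min_le_left _ _) (Nat.cast_nonneg _)) (hBP n hn).2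
  intro d hd ε hε hε1
  obtain ⟨cb, kb, hcb1, hcb⟩ := hBES d hd
  obtain ⟨T0, hT0⟩ : ∃ T0 : ℕ, T0 = ⌈8 / ε⌉₊ := ⟨_, rfl⟩
  have hT01 : 1 ≤ T0 := by rw [hT0, Nat.one_le_ceil_iff]; positivity
  have hT0ε : 1 / (T0 : ℝ) ≤ ε / 8 := by
    have h1 : 8 / ε ≤ (T0 : ℝ) := by rw [hT0]; exact Nat.le_ceil _
    have h2 : (0 : ℝ) < T0 := by exact_mod_cast hT01
    rw [div_le_iff₀ hε] at h1
    rw [div_le_div_iff₀ h2 (by norm_num)]
    linarith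
  obtain ⟨c1, hc1⟩ : ∃ c1 : ℝ, c1 = ε ^ 2 / 512 := ⟨_, rfl⟩
  have hc10 : 0 < c1 := by rw [hc1]; positivity
  obtain ⟨c2, hc2⟩ : ∃ c2 : ℝ, c2 = c1 ^ 2 / (4 * (2 * T0 ^ 2 : ℕ)) := ⟨_, rfl⟩
  have hT0r : (1 : ℝ) ≤ T0 := by exact_mod_cast hT01
  have hc20 : 0 < c2 := by
    rw [hc2]
    push_cast
    positivity
  have hc21 : c2 ≤ 1 := by
    rw [hc2, div_le_one (by push_cast; positivity)]
    have h1 : c1 ≤ 1 := by rw [hc1]; nlinarith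
    have h2 : c1 ^ 2 ≤ 1 := by nlinarith
    push_cast
    nlinarith
  refine ⟨c2 ^ 2 / 8, by positivity, 2 * (cb * T0 ^ kb) ^ 2, ?_, fun k0 => ?_⟩
  · have : 0 < cb * T0 ^ kb := Nat.mul_pos hcb1 (pow_pos hT01 _)
    have : 0 < (cb * T0 ^ kb) ^ 2 := by positivity
    omega
  obtain ⟨kq, hkq⟩ := QB_large hCHB (4 / c2 ^ 2)
  obtain ⟨k1, Hs, hscale⟩ := scale hPUSH ε hε (max k0 kq)
  refine ⟨k1, fun T => ?_⟩
  obtain ⟨h, hh⟩ : ∃ h : ℕ, h = max T 1 := ⟨_, rfl⟩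
  have hh1 : 1 ≤ h := by rw [hh]; exact le_max_right _ _
  obtain ⟨H', hH'⟩ := exists_nat_ge (64 * (h : ℝ) * 2 ^ k1 / ε)
  refine ⟨Hs + H' + 1, Hs + H' + 1, by omega, fun N hN f hf P B hB hBc hBP => ?_⟩
  obtain ⟨H, hHd⟩ : ∃ H : ℕ, H = Hs + H' + 1 := ⟨_, rfl⟩
  rw [← hHd] at hN hBP
  have hH1 : 1 ≤ H := by omega
  have hHr : (0 : ℝ) < H := by exact_mod_cast hH1
  -- the residue class
  obtain ⟨s, hs, hsc⟩ : ∃ s ∈ range H, (B.card : ℝ) / H ≤ ((B.filter (fun n => (H - n % H) % H = s)).card : ℝ) := by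
    refine exists_le_card_fiber_of_nsmul_le_card_of_maps_to (f := fun n => (H - n % H) % H) ?_ ?_ ?_
    · intro n _
      rw [mem_range]
      exact Nat.mod_lt _ (by omega)
    · rw [nonempty_range_iff]; omega
    · rw [card_range, nsmul_eq_mul, mul_div_cancel₀ _ hHr.ne']
  set S : Finset ℕ := B.filter (fun n => (H - n % H) % H = s) with hSd
  have hSB : S ⊆ B := filter_subset _ _
  have hSs : ∀ n ∈ S, (n + s) % H = 0 := by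
    intro n hn
    have h1 := (mem_filter.1 hn).2
    rw [← h1, Nat.add_mod, Nat.mod_mod, ← Nat.add_mod]
    have h2 := Nat.div_add_mod n H
    have h3 := Nat.mod_lt n (show 0 < H by omega)
    have h4 : n + (H - n % H) = H * (n / H + 1) := by rw [mul_add, mul_one]; omega
    rw [h4, Nat.mul_mod_right]
  have hSc : ε * N / H ≤ (S.card : ℝ) :=
    le_trans (div_le_div_of_nonneg_right hBc hHr.le) hsc
  obtain ⟨k, hk0, hk1, hk⟩ := hscale H (by omega) hH1 f hf P S (fun n hn => (hBP n (hSB hn)).2)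
  have hHk : 64 * (h : ℝ) * 2 ^ k ≤ ε * H := by
    have h1 : 64 * (h : ℝ) * 2 ^ k1 ≤ ε * H := by
      have h2 : 64 * (h : ℝ) * 2 ^ k1 / ε ≤ H := hH'.trans (by exact_mod_cast (by omega : H' ≤ H))
      rw [div_le_iff₀ hε] at h2
      linarith
    refine le_trans (mul_le_mul_of_nonneg_left ?_ (by positivity)) h1
    exact pow_le_pow_right₀ (by norm_num) hk1.le
  have hdens := density hf.1 P hε hε1 S hSs (fun n hn => (mem_Icc.1 (hB (hSB hn))).2) hSc (by omega) hHk (by omega) hk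
  have hQ : 4 / c2 ^ 2 ≤ ((QB k).card : ℝ) := hkq k (le_trans (le_max_right _ _) hk0)
  have hQ0 : 0 < (QB k).card := by
    have : (0 : ℝ) < ((QB k).card : ℝ) := lt_of_lt_of_le (by positivity) hQ
    exact_mod_cast this
  obtain ⟨z, E, hE, hz⟩ := exists_z hf.1 P hc10 (by omega) S hSs (fun n hn => (hBP n (hSB hn)).1) hh1 hcb1 hcb hT01 hT0ε
    (Nat.succ_pos (2 * N / 2 ^ k)) (fun m => (QB k).filter (fun p => bs H s (p * m) ∈ S ∧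
        bs H s (p * m + (p - 1)) = bs H s (p * m) ∧ ε / 8 * h ≤ ‖W f (dil p (P (bs H s (p * m)))) m h‖))
    (fun m p hp => mem_filter.1 hp) (by rw [hc1]; exact hdens)
  rw [← hc2] at hz
  obtain ⟨p0, hp0, p1, hp1, hne, hcard⟩ := hG (QB k) E c2 hc20 hc21
    (fun p q hpq => by
      rw [hE] at hpq ⊢
      exact ⟨⟨hpq.1.2, hpq.1.1⟩, Pool.Agent.Helper44K9.FU.Rel.symm' hpq.2⟩) hQ hz
  refine ⟨k, h, le_trans (le_max_left _ _) hk0, hk1, by rw [hh]; exact le_max_left _ _,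
    fun p => (P (bs H s (z / p))).coeff d, p0, p1, hp0, hp1, hne,
    (QB k).filter (fun p => p ≠ p0 ∧ p ≠ p1 ∧ E p p0 ∧ E p p1), filter_subset _ _, ?_, ?_, ?_, ?_, ?_⟩
  · exact fun h => (mem_filter.1 h).2.1 rfl
  · exact fun h => (mem_filter.1 h).2.2.1 rfl
  · refine hcard.trans (le_of_eq ?_)
    congr 2
  · intro p hp
    have h1 := (mem_filter.1 hp).2.2.2
    rw [hE, hE] at h1
    exact ⟨bs H s (z / p), hSB h1.1.1.2, rfl⟩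
  · intro p hp
    have h1 := (mem_filter.1 hp).2.2.2
    rw [hE, hE] at h1
    exact ⟨Pool.Agent.Helper44K9.FU.Rel.symm' h1.1.2, Pool.Agent.Helper44K9.FU.Rel.symm' h1.2.2⟩

end Pool.Agent.Run7.h172.Npp
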