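import Pool.Agent.Run7.h172.Npp.Main
import Pool.Agent.Run7.h811.Npp.RD
import Pool.Agent.Run7.h811.Npp.LD2
import Pool.Agent.Run7.h651.NPP.LD1
import Pool.Agent.Run7.h651.NPP.SR
import Pool.Agent.Run7.h376.Npp.LD
import Pool.Agent.Run7.h803.Npp.SM

/-! # Project NPP: assembly -/

set_option autoImplicit false

namespace Pool.Agent.Run7.h172.Npp

open Finset Polynomial MeasureTheory Filter Topology

theorem pd : S_PD :=
  pd_of (Pool.Agent.Helper44K9.FU.push Pool.Agent.Helper44K9.FU.tk)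
    (Pool.Agent.Helper44K9.FU.bes2 Pool.Agent.Helper44K9.FU.wr2) Pool.Agent.Helper44K9.FU.chb Pool.Agent.Run7.h824.Nls.sG

theorem ld_all : S_LD := Pool.Agent.Run7.h376.Npp.ld Pool.Agent.Run7.h651.NPP.ld1 Pool.Agent.Run7.h811.Npp.ld2

/-- **natural averages** -/
theorem good (d : ℕ) (hd : 1 ≤ d) (E : Set UnitAddCircle) (hEc : IsCompact E) (hE0 : volume E = 0)
    (hEt : ∀ x ∈ E, addOrderOf x = 0) : Good d E :=
  good_of pd Pool.Agent.Run7.h811.Npp.rd ld_all Pool.Agent.Helper44K9.FU.chb d hd E hEc hE0 hEt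

/-- **characterisation of the compact sets** -/
theorem good_iff (d : ℕ) (hd : 1 ≤ d) (E : Set UnitAddCircle) (hEc : IsCompact E) :
    Good d E ↔ volume E = 0 ∧ ∀ x ∈ E, addOrderOf x = 0 := by
  refine ⟨fun h => ⟨?_, ?_⟩, fun h => good d hd E hEc h.1 h.2⟩
  · by_contra hcon
    exact Pool.Agent.Run7.h803.Npp.SM.sm d hd E hEc.measurableSet hcon h
  · by_contra hcon
    push Not at hcon
    exact Pool.Agent.Run7.h651.NPP.sr d hd E hcon h

end Pool.Agent.Run7.h172.Npp
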