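import Pool.Agent.Run7.h172.Npp.PDc

/-! # Piece PD -/

set_option autoImplicit false

namespace Pool.Agent.Run7.h172.Npp

open Finset Polynomial MeasureTheory Filter Topology
open Pool.Agent.H807R2.Dav (ee)
open Pool.Agent.Helper44K9.FU (W Mul1 Rel dil S_PUSH S_BES2 S_CHB)

open Classical in
/-- related pairs at one window -/
lemma pairs {d : ℕ} {cb kb T : ℕ} (hcb1 : 1 ≤ cb) (hcb : ∀ T : ℕ, 1 ≤ T → ∀ f : ℕ → ℂ, (∀ n, ‖f n‖ ≤ 1) →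
    ∀ (n H r : ℕ) (P : Fin r → ℝ[X]), 1 ≤ H → (∀ i, (P i).natDegree ≤ d) →
    (∀ i, 1 / (T : ℝ) * H ≤ ‖W f (P i) n H‖) →
    (∀ i j, i ≠ j → ¬ Rel d (cb * T ^ kb) H ((P i).coeff d) ((P j).coeff d)) → r ≤ 2 * T ^ 2) (hT : 1 ≤ T)
    {f : ℕ → ℂ} (hf : ∀ n, ‖f n‖ ≤ 1) {m h : ℕ} (hh : 1 ≤ h) (Q : ℕ → ℝ[X]) (G : Finset ℕ)
    (hG : ∀ p ∈ G, (Q p).natDegree ≤ d ∧ 1 / (T : ℝ) * h ≤ ‖W f (dil p (Q p)) m h‖) :
    ∃ Pm : Finset (ℕ × ℕ), (∀ pq ∈ Pm, pq.1 ∈ G ∧ pq.2 ∈ G ∧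
      Rel d (2 * (cb * T ^ kb) ^ 2) h ((pq.1 : ℝ) ^ d * (Q pq.1).coeff d) ((pq.2 : ℝ) ^ d * (Q pq.2).coeff d)) ∧
      (G.card : ℝ) ^ 2 ≤ ((2 * T ^ 2 : ℕ) : ℝ) * (Pm.card : ℝ) := by
  obtain ⟨K0, hK0⟩ : ∃ K0 : ℕ, K0 = cb * T ^ kb := ⟨_, rfl⟩
  have hK01 : 1 ≤ K0 := by rw [hK0]; exact Nat.mul_pos hcb1 (pow_pos hT _)
  have hK02 : K0 ≤ 2 * K0 ^ 2 := by nlinarith
  obtain ⟨ρ, hρ⟩ : ∃ ρ : ℕ → ℕ → Prop, ∀ p q, ρ p q ↔ Rel d K0 h ((p : ℝ) ^ d * (Q p).coeff d) ((q : ℝ) ^ d * (Q q).coeff d) :=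
    ⟨_, fun _ _ => Iff.rfl⟩
  have h1 := graph_pairs G ρ (fun p q h => by
    rw [hρ] at h ⊢; exact Pool.Agent.Helper44K9.FU.Rel.symm' h) (2 * T ^ 2) (fun U hU hrel => by
      refine unrelated hcb hT hf hh Q U (fun p hp => hG p (hU hp)) ?_ (m := m)
      intro p hp q hq hpq
      rw [← hK0, ← hρ]
      exact hrel p hp q hq hpq)
  refine ⟨_, ?_, by exact_mod_cast h1⟩
  intro pq hpq
  rw [mem_filter, mem_product] at hpq
  obtain ⟨hpG, r, -, h3, h4⟩ := hpq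
  refine ⟨hpG.1, hpG.2, ?_⟩
  rw [← hK0]
  rcases h3 with h3 | h3 <;> rcases h4 with h4 | h4
  · rw [h3, h4]
    exact rel_refl (by nlinarith) _
  · rw [hρ] at h4
    rw [h3]
    exact (Pool.Agent.Helper44K9.FU.Rel.symm' h4).mono hK02
  · rw [hρ] at h3
    rw [h4]
    exact h3.mono hK02
  · rw [hρ] at h3 h4
    exact rel_trans h3 h4

open Classical in
/-- from the windows to a number `z` -/
lemma blow (k M : ℕ) (Pm : ℕ → Finset (ℕ × ℕ)) (hP : ∀ m, Pm m ⊆ QB k ×ˢ QB k) (E : ℕ → ℕ → ℕ → Prop)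
    (hE : ∀ m p q, (p, q) ∈ Pm m → ∀ j < p * q, E (p * q * m + j) p q) :
    ((2 ^ k : ℕ) : ℝ) ^ 2 * ∑ m ∈ range M, ((Pm m).card : ℝ) ≤
      ∑ z ∈ range (4 * (2 ^ k) ^ 2 * M), (((QB k ×ˢ QB k).filter (fun pq => E z pq.1 pq.2)).card : ℝ) := by
  rw [sub_count (range M) (QB k ×ˢ QB k) Pm hP,
    sub_count (range (4 * (2 ^ k) ^ 2 * M)) (QB k ×ˢ QB k) (fun z => (QB k ×ˢ QB k).filter (fun pq => E z pq.1 pq.2))
      (fun z => filter_subset _ _), mul_sum]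
  refine sum_le_sum fun pq hpq => ?_
  have hpq' := hpq
  rw [mem_product, mem_QB, mem_QB] at hpq'
  obtain ⟨⟨hp1, hp2⟩, hq1, hq2⟩ := hpq'
  obtain ⟨p, q⟩ := pq
  simp only at hp1 hp2 hq1 hq2
  have hp0 : 0 < p := hp2.pos
  have hq0 : 0 < q := hq2.pos
  have b1 : p * q * ((range M).filter (fun m => (p, q) ∈ Pm m)).card ≤
      ((range (4 * (2 ^ k) ^ 2 * M)).filter (fun z => (p, q) ∈ (QB k ×ˢ QB k).filter (fun pq => E z pq.1 pq.2))).card := by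
    refine blowup _ _ (p * q) (Nat.mul_pos hp0 hq0) ?_
    intro m hm j hj
    rw [mem_filter, mem_range] at hm ⊢
    obtain ⟨hmM, hmP⟩ := hm
    refine ⟨?_, mem_filter.2 ⟨hpq, hE m p q hmP j hj⟩⟩
    have e1 : p * q ≤ 4 * (2 ^ k) ^ 2 := by
      rw [pow_succ] at hp1 hq1
      calc p * q ≤ (2 ^ k * 2) * (2 ^ k * 2) := Nat.mul_le_mul hp1.2 hq1.2
        _ = _ := by ring
    have e2 : p * q * m + j < p * q * (m + 1) := by rw [mul_add, mul_one]; omega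
    have e3 : p * q * (m + 1) ≤ 4 * (2 ^ k) ^ 2 * M := Nat.mul_le_mul e1 (by omega)
    omega
  have b2 : ((2 ^ k : ℕ) : ℝ) ^ 2 ≤ ((p * q : ℕ) : ℝ) := by
    rw [sq]
    push_cast
    apply mul_le_mul
    · exact_mod_cast hp1.1.le
    · exact_mod_cast hq1.1.le
    · positivity
    · positivity
  refine le_trans (mul_le_mul_of_nonneg_right b2 (Nat.cast_nonneg _)) ?_
  have b3 := (Nat.cast_le (α := ℝ)).2 b1
  rw [Nat.cast_mul] at b3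
  convert b3 <;> rfl

open Classical in
/-- a number `z` with many related pairs -/
lemma exists_z {f : ℕ → ℂ} (hf : ∀ n, ‖f n‖ ≤ 1) (P : ℕ → ℝ[X]) {ε c1 : ℝ} (hc1 : 0 < c1) {H s h M k d : ℕ}
    (hH : 0 < H) (S : Finset ℕ) (hSs : ∀ n ∈ S, (n + s) % H = 0) (hSd : ∀ n ∈ S, (P n).natDegree ≤ d) (hh : 1 ≤ h)
    {cb kb T : ℕ} (hcb1 : 1 ≤ cb) (hcb : ∀ T : ℕ, 1 ≤ T → ∀ f : ℕ → ℂ, (∀ n, ‖f n‖ ≤ 1) →
    ∀ (n H r : ℕ) (P : Fin r → ℝ[X]), 1 ≤ H → (∀ i, (P i).natDegree ≤ d) →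
    (∀ i, 1 / (T : ℝ) * H ≤ ‖W f (P i) n H‖) →
    (∀ i j, i ≠ j → ¬ Rel d (cb * T ^ kb) H ((P i).coeff d) ((P j).coeff d)) → r ≤ 2 * T ^ 2) (hT : 1 ≤ T)
    (hTε : 1 / (T : ℝ) ≤ ε / 8) (hM : 0 < M)
    (Gm : ℕ → Finset ℕ) (hGm : ∀ m, ∀ p ∈ Gm m, p ∈ QB k ∧ bs H s (p * m) ∈ S ∧
        bs H s (p * m + (p - 1)) = bs H s (p * m) ∧ ε / 8 * h ≤ ‖W f (dil p (P (bs H s (p * m)))) m h‖)
    (hdens : c1 * (M : ℝ) * ((QB k).card : ℝ) ≤ ∑ m ∈ range M, ((Gm m).card : ℝ)) :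
    ∃ (z : ℕ) (E : ℕ → ℕ → Prop), (∀ p q, E p q ↔ ((bs H s (z / q) ∈ S ∧ bs H s (z / p) ∈ S) ∧
        Rel d (2 * (cb * T ^ kb) ^ 2) h ((p : ℝ) ^ d * (P (bs H s (z / q))).coeff d)
          ((q : ℝ) ^ d * (P (bs H s (z / p))).coeff d))) ∧
      c1 ^ 2 / (4 * (2 * T ^ 2 : ℕ)) * ((QB k).card : ℝ) ^ 2 ≤
        (((QB k ×ˢ QB k).filter (fun pq => E pq.1 pq.2)).card : ℝ) := by
  choose Pm hPm1 hPm2 using fun m => pairs hcb1 hcb hT hf hh (fun p => P (bs H s (p * m))) (Gm m) (m := m) (fun p hp =>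
    ⟨hSd _ (hGm m p hp).2.1, le_trans (mul_le_mul_of_nonneg_right hTε (Nat.cast_nonneg _)) (hGm m p hp).2.2.2⟩)
  obtain ⟨R, hR⟩ : ∃ R : ℕ, R = 2 * T ^ 2 := ⟨_, rfl⟩
  rw [← hR] at hPm2
  rw [← hR]
  have hR0 : (0 : ℝ) < R := by
    rw [hR]; have : 0 < 2 * T ^ 2 := by positivity
    exact_mod_cast this
  have hMr : (0 : ℝ) < M := by exact_mod_cast hM
  obtain ⟨E, hE⟩ : ∃ E : ℕ → ℕ → ℕ → Prop, ∀ z p q, E z p q ↔ ((bs H s (z / q) ∈ S ∧ bs H s (z / p) ∈ S) ∧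
        Rel d (2 * (cb * T ^ kb) ^ 2) h ((p : ℝ) ^ d * (P (bs H s (z / q))).coeff d)
          ((q : ℝ) ^ d * (P (bs H s (z / p))).coeff d)) := ⟨_, fun _ _ _ => Iff.rfl⟩
  suffices hsuf : ∃ z, c1 ^ 2 / (4 * (R : ℝ)) * ((QB k).card : ℝ) ^ 2 ≤
      (((QB k ×ˢ QB k).filter (fun pq => E z pq.1 pq.2)).card : ℝ) by
    obtain ⟨z, hz⟩ := hsuf
    exact ⟨z, E z, hE z, hz⟩
  -- the number of the pairs
  have h3 : c1 ^ 2 * M * ((QB k).card : ℝ) ^ 2 / R ≤ ∑ m ∈ range M, ((Pm m).card : ℝ) := by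
    have a1 : (∑ m ∈ range M, ((Gm m).card : ℝ)) ^ 2 ≤ M * ∑ m ∈ range M, ((Gm m).card : ℝ) ^ 2 := by
      have := sq_sum_le_card_mul_sum_sq (s := range M) (f := fun m => ((Gm m).card : ℝ))
      rw [card_range] at this
      exact this
    have a2 : (c1 * (M : ℝ) * ((QB k).card : ℝ)) ^ 2 ≤ M * ∑ m ∈ range M, ((Gm m).card : ℝ) ^ 2 :=
      le_trans (pow_le_pow_left₀ (by positivity) hdens 2) a1
    have a3 : ∑ m ∈ range M, ((Gm m).card : ℝ) ^ 2 ≤ R * ∑ m ∈ range M, ((Pm m).card : ℝ) := by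
      rw [mul_sum]
      exact sum_le_sum fun m _ => hPm2 m
    have a4 : (M : ℝ) * (c1 ^ 2 * M * ((QB k).card : ℝ) ^ 2) ≤ M * (R * ∑ m ∈ range M, ((Pm m).card : ℝ)) := by
      refine le_trans (le_of_eq (by ring)) (a2.trans (mul_le_mul_of_nonneg_left a3 hMr.le))
    have a5 := le_of_mul_le_mul_left a4 hMr
    rw [div_le_iff₀ hR0, mul_comm _ (R : ℝ)]
    exact a5
  -- the numbers `z`
  have h4 := blow k M Pm (fun m pq hpq => mem_product.2 ⟨(hGm m _ (hPm1 m pq hpq).1).1, (hGm m _ (hPm1 m pq hpq).2.1).1⟩)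
    E (by
      intro m p q hpq j hj
      obtain ⟨hp, hq, hrel⟩ := hPm1 m (p, q) hpq
      simp only at hp hq hrel
      have hgp := (hGm m p hp).2
      have hgq := (hGm m q hq).2
      have hp0 : 0 < p := (mem_QB.1 (hGm m p hp).1).2.pos
      have hq0 : 0 < q := (mem_QB.1 (hGm m q hq).1).2.pos
      have c1' : (p * q * m + j) / q = p * m + j / q := by
        rw [show p * q * m + j = q * (p * m) + j by ring, Nat.mul_add_div hq0]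
      have c2' : (p * q * m + j) / p = q * m + j / p := by
        rw [show p * q * m + j = p * (q * m) + j by ring, Nat.mul_add_div hp0]
      have c3 : j / q < p := Nat.div_lt_of_lt_mul (by rw [mul_comm]; exact hj)
      have c4 : j / p < q := Nat.div_lt_of_lt_mul hj
      have c5 : 0 ≤ j / q := Nat.zero_le _
      have c6 : 0 ≤ j / p := Nat.zero_le _
      have d1 : bs H s ((p * q * m + j) / q) = bs H s (p * m) := by
        rw [c1']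
        exact bs_mid hH (hSs _ hgp.1) hgp.2.1 (Nat.le_add_right _ _) (by omega)
      have d2 : bs H s ((p * q * m + j) / p) = bs H s (q * m) := by
        rw [c2']
        exact bs_mid hH (hSs _ hgq.1) hgq.2.1 (Nat.le_add_right _ _) (by omega)
      rw [hE, d1, d2]
      exact ⟨⟨hgp.1, hgq.1⟩, hrel⟩)
  obtain ⟨Z, hZ⟩ : ∃ Z : ℕ, Z = 4 * (2 ^ k) ^ 2 * M := ⟨_, rfl⟩
  rw [← hZ] at h4
  by_contra hcon
  push Not at hcon
  have h5 : ∑ z ∈ range Z, (((QB k ×ˢ QB k).filter (fun pq => E z pq.1 pq.2)).card : ℝ) <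
      Z * (c1 ^ 2 / (4 * (R : ℝ)) * ((QB k).card : ℝ) ^ 2) := by
    have a1 : (range Z).Nonempty := by
      rw [nonempty_range_iff, hZ]
      have : 0 < 4 * (2 ^ k) ^ 2 * M := by positivity
      omega
    refine lt_of_lt_of_le (sum_lt_sum_of_nonempty a1 fun z _ => hcon z) (le_of_eq ?_)
    rw [sum_const, card_range, nsmul_eq_mul]
  have h6 : (Z : ℝ) * (c1 ^ 2 / (4 * (R : ℝ)) * ((QB k).card : ℝ) ^ 2) =
      ((2 ^ k : ℕ) : ℝ) ^ 2 * (c1 ^ 2 * M * ((QB k).card : ℝ) ^ 2 / R) := by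
    rw [hZ]
    push_cast
    field_simp
  rw [h6] at h5
  have h7 := mul_le_mul_of_nonneg_left h3 (show (0 : ℝ) ≤ ((2 ^ k : ℕ) : ℝ) ^ 2 by positivity)
  linarith

end Pool.Agent.Run7.h172.Npp
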