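import Pool.Agent.Run7.h172.Npp.PD
import Pool.Agent.Helper44K9.FU.Fin

/-! # The theorem on natural averages -/

set_option autoImplicit false

namespace Pool.Agent.Run7.h172.Npp

open Finset Polynomial MeasureTheory Filter Topology
open Pool.Agent.H807R2.Dav (ee)
open Pool.Agent.Helper44K9.FU (W Mul1 Rel dil S_CHB)

open Classical in
/-- one length of the windows -/
theorem one_length (hPD : S_PD) (hRD : S_RD) (hLD : S_LD) (hCHB : S_CHB) (d : ℕ) (hd : 1 ≤ d) (E : Set UnitAddCircle)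
    (hEc : IsCompact E) (hE0 : volume E = 0) (hEt : ∀ x ∈ E, addOrderOf x = 0) (ε : ℝ) (hε : 0 < ε) :
    ∃ H N0 : ℕ, 1 ≤ H ∧ ∀ N ≥ N0, ∀ f : ℕ → ℂ, Mul1 f →
      (((Icc 1 N).filter (fun n => ∃ P : ℝ[X], P.natDegree ≤ d ∧ ((P.coeff d : ℝ) : UnitAddCircle) ∈ E ∧
        ε * H ≤ ‖W f P n H‖)).card : ℝ) ≤ ε * N := by
  obtain ⟨c, hc, K, hK, h1⟩ := hPD d hd ε hε
  obtain ⟨τ, hτ, kL, hL⟩ := hLD d K hd hK c hc E hEc hE0 hEt
  obtain ⟨kq, hkq⟩ := QB_large hCHB (2 / c)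
  obtain ⟨k1, h2⟩ := h1 (max (max kL kq) (K ^ 3))
  obtain ⟨T, hT⟩ := hRD d K k1 hd hK
  obtain ⟨T', hT'⟩ := exists_nat_ge ((K : ℝ) / τ)
  obtain ⟨H, N0, hH, h3⟩ := h2 (T + T' + 1)
  refine ⟨H, N0, hH, fun N hN f hf => ?_⟩
  by_contra hcon
  push Not at hcon
  set B : Finset ℕ := (Icc 1 N).filter (fun n => ∃ P : ℝ[X], P.natDegree ≤ d ∧ ((P.coeff d : ℝ) : UnitAddCircle) ∈ E ∧
        ε * H ≤ ‖W f P n H‖) with hB
  have hex : ∀ n, ∃ P : ℝ[X], n ∈ B → P.natDegree ≤ d ∧ ((P.coeff d : ℝ) : UnitAddCircle) ∈ E ∧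
      ε * H ≤ ‖W f P n H‖ := by
    intro n
    by_cases hn : n ∈ B
    · obtain ⟨P, hP⟩ := (mem_filter.1 hn).2
      exact ⟨P, fun _ => hP⟩
    · exact ⟨0, fun h => absurd h hn⟩
  choose P hP using hex
  obtain ⟨k, h, hk0, hk1, hh, α, p0, p1, hp0, hp1, hne, Wp, hW, hW0, hW1, hWc, hWα, hWrel⟩ :=
    h3 N hN f hf P B (filter_subset _ _) hcon.le (fun n hn => ⟨(hP n hn).1, (hP n hn).2.2⟩)
  have hkL : kL ≤ k := le_trans (le_trans (le_max_left _ _) (le_max_left _ _)) hk0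
  have hkK : K ^ 3 ≤ k := le_trans (le_max_right _ _) hk0
  have hkq' : kq ≤ k := le_trans (le_trans (le_max_right _ _) (le_max_left _ _)) hk0
  have hW2 : 2 ≤ Wp.card := by
    have a1 := hkq k hkq'
    rw [div_le_iff₀ hc] at a1
    have a2 : (2 : ℝ) ≤ Wp.card := by
      refine le_trans a1 (le_trans (le_of_eq (mul_comm _ _)) hWc)
    exact_mod_cast a2
  obtain ⟨β, hβ⟩ := hT h (by omega) k hk1 (hkK.trans (Nat.lt_two_pow_self).le) α p0 p1 hp0 hp1 hne Wp hW hW0 hW1 hW2 hWrel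
  have hfin := hL k hkL β Wp hW (fun p hp => by
    obtain ⟨n, hn, hαn⟩ := hWα p hp
    obtain ⟨m, hm1, hm2, a, ha⟩ := hβ p hp
    refine ⟨α p, ?_, m, hm1, hm2, -a, ?_⟩
    · rw [hαn]
      exact (hP n hn).2.1
    · have e1 : (m : ℝ) * (α p - (p : ℝ) ^ d * β) - ((-a : ℤ) : ℝ) = -(m * ((p : ℝ) ^ d * β - α p) - a) := by
        push_cast; ring
      rw [e1, abs_neg]
      refine ha.trans ?_
      have hh1 : (1 : ℝ) ≤ h := by exact_mod_cast (by omega : 1 ≤ h)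
      have a1 : (h : ℝ) ≤ (h : ℝ) ^ d := le_self_pow₀ hh1 (by omega)
      rw [div_le_iff₀ (by positivity)]
      rw [div_le_iff₀ hτ] at hT'
      have a2 : (T' : ℝ) ≤ h := by exact_mod_cast (by omega : T' ≤ h)
      calc (K : ℝ) ≤ T' * τ := hT'
        _ ≤ h * τ := mul_le_mul_of_nonneg_right a2 hτ.le
        _ ≤ (h : ℝ) ^ d * τ := mul_le_mul_of_nonneg_right a1 hτ.le
        _ = _ := mul_comm _ _)
  linarith

open Pool.Agent.Helper44K9.FU (wSup) in
open Pool.Agent.Helper44K9.FU.FL in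
/-- **natural averages** -/
theorem good_of (hPD : S_PD) (hRD : S_RD) (hLD : S_LD) (hCHB : S_CHB) (d : ℕ) (hd : 1 ≤ d) (E : Set UnitAddCircle)
    (hEc : IsCompact E) (hE0 : volume E = 0) (hEt : ∀ x ∈ E, addOrderOf x = 0) : Good d E := by
  classical
  intro ε hε
  obtain ⟨H1, N0, hH1, hone⟩ := one_length hPD hRD hLD hCHB d hd E hEc hE0 hEt (ε / 16) (by positivity)
  have hH1r : (0 : ℝ) < H1 := by exact_mod_cast hH1
  obtain ⟨A, hA⟩ := exists_nat_ge (4 * (H1 : ℝ) / ε)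
  refine ⟨N0 + A + 1, fun f hf N H hH hN => ?_⟩
  show ∑ n ∈ Icc 1 N, wSup d E f n H ≤ ε * H * N
  have hHr : (0 : ℝ) < H := by exact_mod_cast (by omega : 0 < H)
  have hNr : (0 : ℝ) < N := by exact_mod_cast (by omega : 0 < N)
  set s : ℕ → ℝ := fun n => wSup d E f n H1 / H1 with hs
  have hs01 : ∀ n, 0 ≤ s n ∧ s n ≤ 1 := by
    intro n
    simp only [hs]
    refine ⟨div_nonneg (wSup_nonneg n H1) (Nat.cast_nonneg _), ?_⟩
    exact div_le_one_of_le₀ (wSup_le (Nat.cast_nonneg _) fun P _ _ => W_le hf.1 P n H1) (Nat.cast_nonneg _)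
  -- the short windows
  have hsm : ∑ n ∈ Icc 1 (2 * N), s n ≤ ε / 4 * N := by
    have h1 : ∀ n, s n ≤ (if ∃ P : ℝ[X], P.natDegree ≤ d ∧ ((P.coeff d : ℝ) : UnitAddCircle) ∈ E ∧
        ε / 16 * H1 ≤ ‖W f P n H1‖ then 1 else 0) + ε / 16 := by
      intro n
      split_ifs with h
      · linarith [(hs01 n).2]
      · push Not at h
        rw [zero_add]
        simp only [hs]
        rw [div_le_iff₀ hH1r]
        exact wSup_le (by positivity) fun P hP hPE => (h P hP hPE).le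
    have h2 := hone (2 * N) (by omega) f hf
    push_cast at h2
    calc ∑ n ∈ Icc 1 (2 * N), s n ≤ ∑ n ∈ Icc 1 (2 * N), ((if ∃ P : ℝ[X], P.natDegree ≤ d ∧
        ((P.coeff d : ℝ) : UnitAddCircle) ∈ E ∧ ε / 16 * H1 ≤ ‖W f P n H1‖ then (1 : ℝ) else 0) + ε / 16) :=
          sum_le_sum fun n _ => h1 n
      _ = (((Icc 1 (2 * N)).filter (fun n => ∃ P : ℝ[X], P.natDegree ≤ d ∧ ((P.coeff d : ℝ) : UnitAddCircle) ∈ E ∧
        ε / 16 * H1 ≤ ‖W f P n H1‖)).card : ℝ) + (2 * N : ℝ) * (ε / 16) := by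
          rw [sum_add_distrib, sum_const, Nat.card_Icc, Nat.add_sub_cancel, nsmul_eq_mul, card_filter]
          push_cast
          rfl
      _ ≤ ε / 4 * N := by linarith
  -- one long window
  have hlong : ∀ n, wSup d E f n H ≤ ∑ i ∈ range H, s (n + i) + 2 * H1 := by
    intro n
    refine wSup_le (add_nonneg (sum_nonneg fun i _ => (hs01 (n + i)).1) (by positivity)) fun P hP hPE => ?_
    have h3 := sub_window hf.1 P n H H1
    have h4 : ∑ i ∈ range H, ‖W f P (n + i) H1‖ ≤ H1 * ∑ i ∈ range H, s (n + i) := by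
      rw [mul_sum]
      refine sum_le_sum fun i _ => ?_
      simp only [hs]
      rw [mul_div_cancel₀ _ hH1r.ne']
      exact le_wSup hf.1 (n + i) H1 hP hPE
    have h5 : (H1 : ℝ) * ‖W f P n H‖ ≤ H1 * (∑ i ∈ range H, s (n + i) + 2 * H1) := by
      refine h3.trans ?_
      rw [mul_add]
      nlinarith
    exact le_of_mul_le_mul_left h5 hH1r
  have hH1H : 2 * (H1 : ℝ) ≤ ε / 2 * H := by
    have h1 : 4 * (H1 : ℝ) / ε ≤ H := hA.trans (by exact_mod_cast (by omega : A ≤ H))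
    rw [div_le_iff₀ hε] at h1
    linarith
  calc ∑ n ∈ Icc 1 N, wSup d E f n H ≤ ∑ n ∈ Icc 1 N, (∑ i ∈ range H, s (n + i) + 2 * H1) :=
        sum_le_sum fun n _ => hlong n
    _ = ∑ i ∈ range H, ∑ n ∈ Icc 1 N, s (n + i) + N * (2 * H1) := by
        rw [sum_add_distrib, sum_comm, sum_const, Nat.card_Icc, Nat.add_sub_cancel, nsmul_eq_mul]
    _ ≤ ∑ i ∈ range H, ε / 4 * N + N * (2 * H1) := by
        refine add_le_add (sum_le_sum fun i hi => ?_) le_rfl
        rw [mem_range] at hi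
        refine le_trans ?_ hsm
        have h1 : ∑ n ∈ Icc 1 N, s (n + i) = ∑ m ∈ (Icc 1 N).image (fun n => n + i), s m := by
          rw [sum_image fun a _ b _ hab => by omega]
        rw [h1]
        refine sum_le_sum_of_subset_of_nonneg ?_ fun m _ _ => (hs01 m).1
        intro m hm
        rw [mem_image] at hm
        obtain ⟨n, hn, rfl⟩ := hm
        rw [mem_Icc] at hn ⊢
        omega
    _ = ε / 4 * H * N + N * (2 * H1) := by rw [sum_const, card_range, nsmul_eq_mul]; ring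
    _ ≤ ε / 4 * H * N + N * (ε / 2 * H) := by
        refine add_le_add le_rfl (mul_le_mul_of_nonneg_left hH1H hNr.le)
    _ ≤ ε * H * N := by
        have : 0 < ε * H * N := by positivity
        nlinarith

end Pool.Agent.Run7.h172.Npp
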