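import Pool.Agent.Run7.h172.Npp.Stm
import Pool.Agent.Helper44K9.FU.Lst
import Pool.Agent.Helper44K9.FU.Fin
import Pool.Agent.Helper44K9.FU.Bes2

/-! # Piece PD: preparations -/

set_option autoImplicit false

namespace Pool.Agent.Run7.h172.Npp

open Finset Polynomial MeasureTheory Filter Topology
open Pool.Agent.H807R2.Dav (ee)
open Pool.Agent.Helper44K9.FU (W Mul1 Rel dil S_PUSH S_BES2 S_CHB)

/-- relations are almost transitive -/
lemma rel_trans {d K h : ℕ} {α β γ : ℝ} (h1 : Rel d K h α γ) (h2 : Rel d K h β γ) :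
    Rel d (2 * K ^ 2) h α β := by
  obtain ⟨m1, hm1, hm1', a1, ha1⟩ := h1
  obtain ⟨m2, hm2, hm2', a2, ha2⟩ := h2
  refine ⟨m1 * m2, Nat.mul_pos hm1 hm2, ?_, m2 * a1 - m1 * a2, ?_⟩
  · calc m1 * m2 ≤ K * K := Nat.mul_le_mul hm1' hm2'
      _ ≤ 2 * K ^ 2 := by nlinarith [Nat.zero_le (K * K)]
  · have e : ((m1 * m2 : ℕ) : ℝ) * (α - β) - ((m2 * a1 - m1 * a2 : ℤ) : ℝ) =
        m2 * (m1 * (α - γ) - a1) - m1 * (m2 * (β - γ) - a2) := by push_cast; ring
    rw [e]
    have hm1r : (m1 : ℝ) ≤ K := by exact_mod_cast hm1'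
    have hm2r : (m2 : ℝ) ≤ K := by exact_mod_cast hm2'
    have hK0 : (0 : ℝ) ≤ K / (h : ℝ) ^ d := by positivity
    calc |(m2 : ℝ) * (m1 * (α - γ) - a1) - m1 * (m2 * (β - γ) - a2)| ≤
        |(m2 : ℝ) * (m1 * (α - γ) - a1)| + |(m1 : ℝ) * (m2 * (β - γ) - a2)| := abs_sub _ _
      _ = m2 * |m1 * (α - γ) - a1| + m1 * |m2 * (β - γ) - a2| := by
          rw [abs_mul, abs_mul, Nat.abs_cast, Nat.abs_cast]
      _ ≤ K * (K / (h : ℝ) ^ d) + K * (K / (h : ℝ) ^ d) := by
          apply add_le_add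
          · exact mul_le_mul hm2r ha1 (abs_nonneg _) (Nat.cast_nonneg _)
          · exact mul_le_mul hm1r ha2 (abs_nonneg _) (Nat.cast_nonneg _)
      _ = ((2 * K ^ 2 : ℕ) : ℝ) / (h : ℝ) ^ d := by push_cast; ring

open Classical in
/-- many related pairs, if there are few unrelated elements -/
lemma graph_pairs (G : Finset ℕ) (ρ : ℕ → ℕ → Prop) (hsymm : ∀ p q, ρ p q → ρ q p) (R : ℕ)
    (hR : ∀ U ⊆ G, (∀ p ∈ U, ∀ q ∈ U, p ≠ q → ¬ ρ p q) → U.card ≤ R) :
    G.card ^ 2 ≤ R * ((G ×ˢ G).filter (fun pq => ∃ r ∈ G, (pq.1 = r ∨ ρ pq.1 r) ∧ (pq.2 = r ∨ ρ pq.2 r))).card := by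
  obtain ⟨Ind, hInd⟩ : ∃ Ind : Finset ℕ → Prop, ∀ U, Ind U ↔ ∀ p ∈ U, ∀ q ∈ U, p ≠ q → ¬ ρ p q :=
    ⟨_, fun _ => Iff.rfl⟩
  obtain ⟨U, hU, hmax⟩ := (G.powerset.filter Ind).exists_max_image card
    ⟨∅, by rw [mem_filter, hInd]; simp⟩
  rw [mem_filter, mem_powerset, hInd] at hU
  have hcov : ∀ p ∈ G, ∃ u ∈ U, p = u ∨ ρ p u := by
    intro p hp
    by_contra hcon
    push Not at hcon
    have hpU : p ∉ U := fun h => (hcon p h).1 rfl
    have h1 := hmax (insert p U) (by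
      rw [mem_filter, mem_powerset, hInd]
      refine ⟨insert_subset hp hU.1, ?_⟩
      intro a ha b hb hab
      rw [mem_insert] at ha hb
      rcases ha with rfl | ha <;> rcases hb with rfl | hb
      · exact absurd rfl hab
      · exact (hcon b hb).2
      · exact fun h => (hcon a ha).2 (hsymm _ _ h)
      · exact hU.2 a ha b hb hab)
    rw [card_insert_of_notMem hpU] at h1
    omega
  choose! u hu1 hu2 using hcov
  have h1 : G.card = ∑ v ∈ U, (G.filter (fun p => u p = v)).card := card_eq_sum_card_fiberwise hu1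
  have h2 : ∑ v ∈ U, (G.filter (fun p => u p = v)).card ^ 2 ≤
      ((G ×ˢ G).filter (fun pq => ∃ r ∈ G, (pq.1 = r ∨ ρ pq.1 r) ∧ (pq.2 = r ∨ ρ pq.2 r))).card := by
    calc ∑ v ∈ U, (G.filter (fun p => u p = v)).card ^ 2 =
        ∑ v ∈ U, ((G.filter (fun p => u p = v)) ×ˢ (G.filter (fun p => u p = v))).card := by
          refine sum_congr rfl fun v _ => ?_
          rw [card_product, sq]
      _ = (U.biUnion (fun v => (G.filter (fun p => u p = v)) ×ˢ (G.filter (fun p => u p = v)))).card := by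
          rw [card_biUnion]
          intro v _ w _ hvw
          show Disjoint _ _
          rw [disjoint_left]
          intro x hx hy
          rw [mem_product, mem_filter] at hx hy
          exact hvw (hx.1.2.symm.trans hy.1.2)
      _ ≤ _ := by
          apply card_le_card
          intro x hx
          rw [mem_biUnion] at hx
          obtain ⟨v, hv, hx⟩ := hx
          rw [mem_product, mem_filter, mem_filter] at hx
          rw [mem_filter, mem_product]
          refine ⟨⟨hx.1.1, hx.2.1⟩, v, hU.1 hv, ?_, ?_⟩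
          · have := hu2 x.1 hx.1.1
            rwa [hx.1.2] at this
          · have := hu2 x.2 hx.2.1
            rwa [hx.2.2] at this
  calc G.card ^ 2 = (∑ v ∈ U, (G.filter (fun p => u p = v)).card) ^ 2 := by rw [← h1]
    _ ≤ U.card * ∑ v ∈ U, (G.filter (fun p => u p = v)).card ^ 2 := sq_sum_le_card_mul_sum_sq
    _ ≤ R * _ := Nat.mul_le_mul (hR U hU.1 hU.2) h2

/-- the beginning of the window of `x`; the windows begin at the `n` with `H ∣ n + s` -/
def bs (H s x : ℕ) : ℕ := x - (x + s) % H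

lemma bs_of {H s n x : ℕ} (hn : (n + s) % H = 0) (h1 : n ≤ x) (h2 : x < n + H) : bs H s x = n := by
  unfold bs
  have e : (x + s) % H = x - n := by
    have : x + s = (n + s) + (x - n) := by omega
    rw [this, Nat.add_mod, hn, Nat.zero_add, Nat.mod_mod, Nat.mod_eq_of_lt (by omega)]
  omega

lemma bs_spec {H s x : ℕ} (hH : 0 < H) : bs H s x ≤ x ∧ x < bs H s x + H := by
  unfold bs
  have := Nat.mod_lt (x + s) hH
  omega

lemma bs_mid {H s a b x : ℕ} (hH : 0 < H) (h1 : (bs H s a + s) % H = 0) (h2 : bs H s b = bs H s a) (hax : a ≤ x)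
    (hxb : x ≤ b) : bs H s x = bs H s a := by
  have h3 := bs_spec (s := s) (x := a) hH
  have h4 := bs_spec (s := s) (x := b) hH
  exact bs_of h1 (by omega) (by omega)

open Classical in
/-- from a window of length `H / p` to windows of length `h` -/
lemma fiber {f : ℕ → ℂ} (hf : ∀ n, ‖f n‖ ≤ 1) (Q : ℝ[X]) {ε : ℝ} (hε : 0 < ε) (hε1 : ε ≤ 1) {H s n p h M : ℕ}
    (hn : (n + s) % H = 0) (hp : 0 < p) (hh : 0 < h) (hL : 16 * (h : ℝ) ≤ ε * ((H / p : ℕ) : ℝ))
    (hM : n / p + H / p ≤ M) (hc : ε / 2 * ((H / p : ℕ) : ℝ) ≤ ‖W f Q (n / p) (H / p)‖) :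
    ε / 16 * ((H / p : ℕ) : ℝ) ≤ (((range M).filter (fun m => bs H s (p * m) = n ∧ bs H s (p * m + (p - 1)) = n ∧
      ε / 8 * h ≤ ‖W f Q m h‖)).card : ℝ) := by
  obtain ⟨L, hLd⟩ : ∃ L : ℕ, L = H / p := ⟨_, rfl⟩
  rw [← hLd] at hL hM hc ⊢
  have hhr : (1 : ℝ) ≤ h := by exact_mod_cast hh
  have hLr : (0 : ℝ) < L := by
    by_contra hcon
    push Not at hcon
    nlinarith
  have hpL : p * L ≤ H := by rw [hLd]; exact Nat.mul_div_le H p
  -- the good positions
  have h1 := Pool.Agent.Helper44K9.FU.FL.sub_window hf Q (n / p) L h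
  set J : Finset ℕ := (range L).filter (fun i => ε / 8 * h ≤ ‖W f Q (n / p + i) h‖) with hJ
  have h2 : ∑ i ∈ range L, ‖W f Q (n / p + i) h‖ ≤ (J.card : ℝ) * h + L * (ε / 8 * h) := by
    rw [← sum_filter_add_sum_filter_not (range L) (fun i => ε / 8 * h ≤ ‖W f Q (n / p + i) h‖)]
    apply add_le_add
    · calc ∑ i ∈ J, ‖W f Q (n / p + i) h‖ ≤ ∑ i ∈ J, (h : ℝ) :=
          sum_le_sum fun i _ => Pool.Agent.Helper44K9.FU.FL.W_le hf Q _ h
        _ = _ := by rw [sum_const, nsmul_eq_mul]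
    · calc ∑ i ∈ (range L).filter (fun i => ¬ ε / 8 * h ≤ ‖W f Q (n / p + i) h‖), ‖W f Q (n / p + i) h‖ ≤
          ∑ i ∈ (range L).filter (fun i => ¬ ε / 8 * h ≤ ‖W f Q (n / p + i) h‖), ε / 8 * (h : ℝ) :=
            sum_le_sum fun i hi => (not_le.1 (mem_filter.1 hi).2).le
        _ ≤ ∑ i ∈ range L, ε / 8 * (h : ℝ) :=
            sum_le_sum_of_subset_of_nonneg (filter_subset _ _) fun _ _ _ => by positivity
        _ = _ := by rw [sum_const, card_range, nsmul_eq_mul]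
  have h3 : ε / 8 * L + 1 ≤ (J.card : ℝ) + 1 := by
    have h4 : (h : ℝ) * (ε / 2 * L) ≤ (J.card : ℝ) * h + L * (ε / 8 * h) + 2 * (h : ℝ) ^ 2 := by
      refine le_trans (mul_le_mul_of_nonneg_left hc (by linarith)) (h1.trans ?_)
      linarith
    have h5 : (h : ℝ) * (ε / 8 * L) ≤ h * (J.card : ℝ) := by
      have h6 : 2 * (h : ℝ) ^ 2 ≤ h * (ε / 8 * L) := by nlinarith
      nlinarith [mul_pos hε hLr]
    have h7 := le_of_mul_le_mul_left h5 (by linarith)
    linarith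
  have h4 : ε / 16 * L ≤ ((J.erase 0).card : ℝ) := by
    have h5 : J.card ≤ (J.erase 0).card + 1 := by
      have := pred_card_le_card_erase (s := J) (a := 0)
      omega
    have h6 : (J.card : ℝ) ≤ ((J.erase 0).card : ℝ) + 1 := by exact_mod_cast h5
    have h7 : 1 ≤ ε / 16 * L := by linarith
    linarith
  refine h4.trans ?_
  have h5 : (J.erase 0).card ≤ ((range M).filter (fun m => bs H s (p * m) = n ∧ bs H s (p * m + (p - 1)) = n ∧
      ε / 8 * h ≤ ‖W f Q m h‖)).card := by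
    refine card_le_card_of_injOn (fun i => n / p + i) ?_ ?_
    · intro i hi
      rw [mem_coe, mem_erase, hJ, mem_filter, mem_range] at hi
      obtain ⟨hi0, hiL, hiW⟩ := hi
      rw [mem_coe, mem_filter, mem_range]
      have h6 := Nat.div_add_mod n p
      have h7 := Nat.mod_lt n hp
      have h8 : p * 1 ≤ p * i := Nat.mul_le_mul_left p (by omega)
      have h9 : p * (i + 1) ≤ p * L := Nat.mul_le_mul_left p (by omega)
      have e1 : p * (n / p + i) = p * (n / p) + p * i := by ring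
      have e2 : p * (i + 1) = p * i + p := by ring
      refine ⟨show n / p + i < M by omega, ?_, ?_, hiW⟩
      · show bs H s (p * (n / p + i)) = n
        rw [e1]
        exact bs_of hn (by omega) (by omega)
      · show bs H s (p * (n / p + i) + (p - 1)) = n
        rw [e1]
        exact bs_of hn (by omega) (by omega)
    · intro i _ j _ hij
      simp only at hij
      omega
  exact_mod_cast h5

/-- the primes of a dyadic block -/
lemma mem_QB {k p : ℕ} : p ∈ QB k ↔ (2 ^ k < p ∧ p ≤ 2 ^ (k + 1)) ∧ p.Prime := by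
  unfold QB
  rw [mem_filter, mem_Ioc]

open Classical in
/-- at most `R` unrelated phases -/
lemma unrelated {d : ℕ} {cb kb T : ℕ} (hcb : ∀ T : ℕ, 1 ≤ T → ∀ f : ℕ → ℂ, (∀ n, ‖f n‖ ≤ 1) →
    ∀ (n H r : ℕ) (P : Fin r → ℝ[X]), 1 ≤ H → (∀ i, (P i).natDegree ≤ d) →
    (∀ i, 1 / (T : ℝ) * H ≤ ‖W f (P i) n H‖) →
    (∀ i j, i ≠ j → ¬ Rel d (cb * T ^ kb) H ((P i).coeff d) ((P j).coeff d)) → r ≤ 2 * T ^ 2) (hT : 1 ≤ T)
    {f : ℕ → ℂ} (hf : ∀ n, ‖f n‖ ≤ 1) {m h : ℕ} (hh : 1 ≤ h) (Q : ℕ → ℝ[X]) (U : Finset ℕ)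
    (hU : ∀ p ∈ U, (Q p).natDegree ≤ d ∧ 1 / (T : ℝ) * h ≤ ‖W f (dil p (Q p)) m h‖)
    (hrel : ∀ p ∈ U, ∀ q ∈ U, p ≠ q → ¬ Rel d (cb * T ^ kb) h ((p : ℝ) ^ d * (Q p).coeff d) ((q : ℝ) ^ d * (Q q).coeff d)) :
    U.card ≤ 2 * T ^ 2 := by
  refine hcb T hT f hf m h U.card (fun i => dil (U.equivFin.symm i) (Q (U.equivFin.symm i))) hh ?_ ?_ ?_
  · intro i
    exact Pool.Agent.Helper44K9.FU.dil_natDegree (hU _ (U.equivFin.symm i).2).1
  · intro i
    exact (hU _ (U.equivFin.symm i).2).2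
  · intro i j hij
    simp only [Pool.Agent.Helper44K9.FU.dil_coeff]
    refine hrel _ (U.equivFin.symm i).2 _ (U.equivFin.symm j).2 ?_
    intro h1
    exact hij (U.equivFin.symm.injective (Subtype.ext h1))

end Pool.Agent.Run7.h172.Npp
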