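import Pool.Agent.Run7.h172.Npp.PDa

/-! # Piece PD: the choice of the scale -/

set_option autoImplicit false

namespace Pool.Agent.Run7.h172.Npp

open Finset Polynomial MeasureTheory Filter Topology
open Pool.Agent.H807R2.Dav (ee)
open Pool.Agent.Helper44K9.FU (W Mul1 Rel dil S_PUSH S_BES2 S_CHB)

lemma blocks (F : ℕ → ℝ) (k₁ : ℕ) : ∀ k₂, k₁ ≤ k₂ → ∑ p ∈ (Ioc (2 ^ k₁) (2 ^ k₂)).filter Nat.Prime, F p =
    ∑ k ∈ Ico k₁ k₂, ∑ p ∈ QB k, F p := by
  intro k₂ h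
  induction k₂, h using Nat.le_induction with
  | base => simp
  | succ k hk ih =>
    rw [sum_Ico_succ_top hk, ← ih]
    have h1 : (2 : ℕ) ^ k₁ ≤ 2 ^ k := Nat.pow_le_pow_right (by norm_num) hk
    have h2 : (2 : ℕ) ^ k ≤ 2 ^ (k + 1) := Nat.pow_le_pow_right (by norm_num) (by omega)
    have h3 : (Ioc (2 ^ k₁) (2 ^ (k + 1))).filter Nat.Prime =
        (Ioc (2 ^ k₁) (2 ^ k)).filter Nat.Prime ∪ QB k := by
      unfold QB
      rw [← filter_union, Ioc_union_Ioc_eq_Ioc h1 h2]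
    rw [h3, sum_union]
    rw [disjoint_left]
    intro x hx hy
    rw [mem_filter, mem_Ioc] at hx
    rw [mem_QB] at hy
    omega

/-- the sum of the reciprocals of the primes diverges -/
lemma exists_k1 (z : ℕ) (A : ℝ) : ∃ k1 : ℕ, z ≤ k1 ∧ A ≤ ∑ p ∈ (Ioc (2 ^ z) (2 ^ k1)).filter Nat.Prime, 1 / (p : ℝ) := by
  set g : ℕ → ℝ := Set.indicator {p : ℕ | p.Prime} (fun n : ℕ => (1 : ℝ) / n) with hg
  have hg0 : ∀ n, 0 ≤ g n := fun n => Set.indicator_nonneg (fun _ _ => by positivity) n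
  have h1 : Tendsto (fun n => ∑ i ∈ range n, g i) atTop atTop :=
    (not_summable_iff_tendsto_nat_atTop_of_nonneg hg0).1 not_summable_one_div_on_primes
  obtain ⟨n, hn⟩ := (h1.eventually_ge_atTop (A + ∑ i ∈ range (2 ^ z + 1), g i)).exists
  refine ⟨max z n, le_max_left _ _, ?_⟩
  have h2 : ∑ p ∈ (Ioc (2 ^ z) (2 ^ (max z n))).filter Nat.Prime, 1 / (p : ℝ) = ∑ i ∈ Ioc (2 ^ z) (2 ^ (max z n)), g i := by
    rw [sum_filter]
    refine sum_congr rfl fun i _ => ?_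
    rw [hg, Set.indicator_apply]
    rfl
  have hz : 2 ^ z ≤ 2 ^ (max z n) := Nat.pow_le_pow_right (by norm_num) (le_max_left _ _)
  have h3 : range n ⊆ range (2 ^ (max z n) + 1) := by
    rw [range_subset_range]
    have h4 : n < 2 ^ n := Nat.lt_two_pow_self
    have h5 : 2 ^ n ≤ 2 ^ (max z n) := Nat.pow_le_pow_right (by norm_num) (le_max_right _ _)
    omega
  have h4 : ∑ i ∈ range (2 ^ (max z n) + 1), g i = ∑ i ∈ range (2 ^ z + 1), g i + ∑ i ∈ Ioc (2 ^ z) (2 ^ (max z n)), g i := by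
    rw [← sum_union]
    · congr 1
      ext i
      simp only [mem_union, mem_range, mem_Ioc]
      omega
    · rw [disjoint_left]
      intro x hx hy
      rw [mem_range] at hx
      rw [mem_Ioc] at hy
      omega
  have h5 : ∑ i ∈ range n, g i ≤ ∑ i ∈ range (2 ^ (max z n) + 1), g i :=
    sum_le_sum_of_subset_of_nonneg h3 fun i _ _ => hg0 i
  rw [h2]
  linarith

open Classical in
/-- **the choice of the scale** -/
lemma scale (hPUSH : S_PUSH) (ε : ℝ) (hε : 0 < ε) (k0 : ℕ) : ∃ k1 H0 : ℕ, ∀ H ≥ H0, 1 ≤ H →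
    ∀ f : ℕ → ℂ, Mul1 f → ∀ (P : ℕ → ℝ[X]) (S : Finset ℕ), (∀ n ∈ S, ε * H ≤ ‖W f (P n) n H‖) →
    ∃ k : ℕ, k0 ≤ k ∧ k < k1 ∧ 3 / 8 * (S.card : ℝ) * ((QB k).card : ℝ) ≤
      ∑ p ∈ QB k, ((S.filter (fun n => ε / 2 * ((H / p : ℕ) : ℝ) ≤ ‖W f (dil p (P n)) (n / p) (H / p)‖)).card : ℝ) := by
  obtain ⟨kc, hkc⟩ : ∃ kc : ℕ, 16 / ε ≤ (2 : ℝ) ^ kc := by
    obtain ⟨n, hn⟩ := pow_unbounded_of_one_lt (16 / ε) (by norm_num : (1 : ℝ) < 2)
    exact ⟨n, hn.le⟩
  obtain ⟨z, hz⟩ : ∃ z : ℕ, z = max k0 kc := ⟨_, rfl⟩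
  obtain ⟨k1, hk1, hA⟩ := exists_k1 z (1600 / ε ^ 2)
  set I : Finset ℕ := (Ioc (2 ^ z) (2 ^ k1)).filter Nat.Prime with hI
  obtain ⟨H0, hH0⟩ := hPUSH I (ε / 2) (by positivity) (by
    intro p hp
    rw [hI, mem_filter, mem_Ioc] at hp
    refine ⟨hp.2, ?_⟩
    calc 8 / (ε / 2) = 16 / ε := by field_simp; norm_num
      _ ≤ (2 : ℝ) ^ kc := hkc
      _ ≤ (2 : ℝ) ^ z := pow_le_pow_right₀ (by norm_num) (by rw [hz]; exact le_max_right _ _)
      _ ≤ p := by exact_mod_cast hp.1.1.le)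
  refine ⟨k1, H0, fun H hH hH1 f hf P S hS => ?_⟩
  have hHr : (0 : ℝ) < H := by exact_mod_cast hH1
  rcases S.eq_empty_or_nonempty with hS0 | hS0
  · have hzk : z < k1 := by
      by_contra hcon
      push Not at hcon
      have : k1 = z := le_antisymm hcon hk1
      rw [hI, this] at hA
      simp only [Ioc_self, filter_empty, sum_empty] at hA
      have : 0 < 1600 / ε ^ 2 := by positivity
      linarith
    refine ⟨z, by rw [hz]; exact le_max_left _ _, hzk, ?_⟩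
    rw [hS0]
    simp
  by_contra hcon
  push Not at hcon
  have hSr : (0 : ℝ) < S.card := by exact_mod_cast hS0.card_pos
  set bad : ℕ → ℕ → Prop := fun n p => ‖W f (dil p (P n)) (n / p) (H / p)‖ <
    (‖W f (P n) n H‖ / H - ε / 2) * ((H / p : ℕ) : ℝ) with hbad
  -- upper bound
  have h1 : ∑ n ∈ S, ∑ p ∈ I.filter (bad n), 1 / (p : ℝ) ≤ S.card * (400 / ε ^ 2) := by
    calc ∑ n ∈ S, ∑ p ∈ I.filter (bad n), 1 / (p : ℝ) ≤ ∑ n ∈ S, 100 / (ε / 2) ^ 2 := by
          refine sum_le_sum fun n _ => ?_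
          have := hH0 H hH f hf (P n) n
          convert this using 2
      _ = S.card * (400 / ε ^ 2) := by
          rw [sum_const, nsmul_eq_mul]
          congr 1
          field_simp
          norm_num
  -- lower bound in one block
  have h2 : ∀ k ∈ Ico z k1, 5 / 16 * S.card * ∑ p ∈ QB k, 1 / (p : ℝ) ≤
      ∑ p ∈ QB k, ∑ n ∈ S, if bad n p then 1 / (p : ℝ) else 0 := by
    intro k hk
    rw [mem_Ico] at hk
    have hk0 : k0 ≤ k := le_trans (by rw [hz]; exact le_max_left _ _) hk.1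
    have h3 := hcon k hk0 hk.2
    have hy : (0 : ℝ) < (2 : ℝ) ^ k := by positivity
    have h4 : ∀ p ∈ QB k, ((S.card : ℝ) - ((S.filter (fun n => ε / 2 * ((H / p : ℕ) : ℝ) ≤
        ‖W f (dil p (P n)) (n / p) (H / p)‖)).card : ℝ)) / (2 * 2 ^ k) ≤
        ∑ n ∈ S, if bad n p then 1 / (p : ℝ) else 0 := by
      intro p hp
      rw [mem_QB] at hp
      have hp1 : (p : ℝ) ≤ 2 * 2 ^ k := by
        have : (p : ℝ) ≤ ((2 ^ (k + 1) : ℕ) : ℝ) := by exact_mod_cast hp.1.2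
        rw [pow_succ] at this
        push_cast at this
        linarith
      have hp0 : (0 : ℝ) < p := by exact_mod_cast hp.2.pos
      have h5 : (S.filter (fun n => ¬ ε / 2 * ((H / p : ℕ) : ℝ) ≤ ‖W f (dil p (P n)) (n / p) (H / p)‖)) ⊆
          S.filter (fun n => bad n p) := by
        intro n hn
        rw [mem_filter] at hn ⊢
        refine ⟨hn.1, ?_⟩
        have h6 := not_le.1 hn.2
        refine lt_of_lt_of_le h6 ?_
        apply mul_le_mul_of_nonneg_right _ (Nat.cast_nonneg _)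
        have h7 : ε ≤ ‖W f (P n) n H‖ / H := by
          rw [le_div_iff₀ hHr]
          exact hS n hn.1
        linarith
      have h6 := card_filter_add_card_filter_not (s := S) (fun n => ε / 2 * ((H / p : ℕ) : ℝ) ≤
        ‖W f (dil p (P n)) (n / p) (H / p)‖)
      have h7 := card_le_card h5
      have h8 : (S.card : ℝ) - ((S.filter (fun n => ε / 2 * ((H / p : ℕ) : ℝ) ≤
        ‖W f (dil p (P n)) (n / p) (H / p)‖)).card : ℝ) ≤ ((S.filter (fun n => bad n p)).card : ℝ) := by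
        rw [sub_le_iff_le_add]
        exact_mod_cast (by omega : S.card ≤ (S.filter (fun n => bad n p)).card + (S.filter (fun n =>
          ε / 2 * ((H / p : ℕ) : ℝ) ≤ ‖W f (dil p (P n)) (n / p) (H / p)‖)).card)
      rw [← sum_filter, sum_const, nsmul_eq_mul, mul_one_div]
      calc _ ≤ ((S.filter (fun n => bad n p)).card : ℝ) / (2 * 2 ^ k) := div_le_div_of_nonneg_right h8 (by positivity)
        _ ≤ _ := div_le_div_of_nonneg_left (Nat.cast_nonneg _) hp0 hp1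
    have h5 : ∑ p ∈ QB k, 1 / (p : ℝ) ≤ (QB k).card / 2 ^ k := by
      calc ∑ p ∈ QB k, 1 / (p : ℝ) ≤ ∑ p ∈ QB k, 1 / (2 : ℝ) ^ k := by
            refine sum_le_sum fun p hp => ?_
            rw [mem_QB] at hp
            apply one_div_le_one_div_of_le hy
            exact_mod_cast hp.1.1.le
        _ = _ := by rw [sum_const, nsmul_eq_mul, mul_one_div]
    calc 5 / 16 * S.card * ∑ p ∈ QB k, 1 / (p : ℝ) ≤ 5 / 16 * S.card * ((QB k).card / 2 ^ k) :=
          mul_le_mul_of_nonneg_left h5 (by positivity)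
      _ = (S.card * (QB k).card - 3 / 8 * (S.card : ℝ) * (QB k).card) / (2 * 2 ^ k) := by field_simp; ring
      _ ≤ (S.card * (QB k).card - ∑ p ∈ QB k, ((S.filter (fun n => ε / 2 * ((H / p : ℕ) : ℝ) ≤
            ‖W f (dil p (P n)) (n / p) (H / p)‖)).card : ℝ)) / (2 * 2 ^ k) := by
          apply div_le_div_of_nonneg_right _ (by positivity)
          linarith
      _ = ∑ p ∈ QB k, ((S.card : ℝ) - ((S.filter (fun n => ε / 2 * ((H / p : ℕ) : ℝ) ≤
            ‖W f (dil p (P n)) (n / p) (H / p)‖)).card : ℝ)) / (2 * 2 ^ k) := by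
          rw [← sum_div, sum_sub_distrib, sum_const, nsmul_eq_mul]
          congr 2
          ring
      _ ≤ _ := sum_le_sum h4
  have h3 : 5 / 16 * S.card * (1600 / ε ^ 2) ≤ ∑ n ∈ S, ∑ p ∈ I.filter (bad n), 1 / (p : ℝ) := by
    calc 5 / 16 * S.card * (1600 / ε ^ 2) ≤ 5 / 16 * S.card * ∑ p ∈ I, 1 / (p : ℝ) :=
          mul_le_mul_of_nonneg_left hA (by positivity)
      _ = ∑ k ∈ Ico z k1, 5 / 16 * S.card * ∑ p ∈ QB k, 1 / (p : ℝ) := by
          rw [hI, blocks _ z k1 hk1, mul_sum]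
      _ ≤ ∑ k ∈ Ico z k1, ∑ p ∈ QB k, ∑ n ∈ S, (if bad n p then 1 / (p : ℝ) else 0) := sum_le_sum h2
      _ = ∑ p ∈ I, ∑ n ∈ S, (if bad n p then 1 / (p : ℝ) else 0) := by
          rw [hI, blocks _ z k1 hk1]
      _ = ∑ n ∈ S, ∑ p ∈ I.filter (bad n), 1 / (p : ℝ) := by
          rw [sum_comm]
          exact sum_congr rfl fun n _ => (sum_filter (bad n) (fun p : ℕ => 1 / (p : ℝ))).symm
  have h4 := h3.trans h1
  have h5 : 5 / 16 * (S.card : ℝ) * (1600 / ε ^ 2) = 500 * (S.card / ε ^ 2) := by ring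
  have h6 : (S.card : ℝ) * (400 / ε ^ 2) = 400 * (S.card / ε ^ 2) := by ring
  have h7 : 0 < (S.card : ℝ) / ε ^ 2 := by positivity
  rw [h5, h6] at h4
  linarith

end Pool.Agent.Run7.h172.Npp
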