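import Pool.Agent.Run7.h172.Npp.PDb

/-! # Piece PD -/

set_option autoImplicit false

namespace Pool.Agent.Run7.h172.Npp

open Finset Polynomial MeasureTheory Filter Topology
open Pool.Agent.H807R2.Dav (ee)
open Pool.Agent.Helper44K9.FU (W Mul1 Rel dil S_PUSH S_BES2 S_CHB)

lemma rel_refl {d K h : ℕ} (hK : 1 ≤ K) (α : ℝ) : Rel d K h α α := by
  refine ⟨1, le_rfl, hK, 0, ?_⟩
  simp only [sub_self, mul_zero, Int.cast_zero, abs_zero]
  positivity

/-- the number of primes in the blocks -/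
lemma QB_large (hC : S_CHB) (R : ℝ) : ∃ k0 : ℕ, ∀ k ≥ k0, R ≤ ((QB k).card : ℝ) := by
  obtain ⟨⟨b, hb, kc, hk⟩, -⟩ := hC
  have h1 : Tendsto (fun k : ℕ => ((2 : ℝ) ^ k) / (k : ℝ) ^ 1) atTop atTop := by
    have := tendsto_pow_const_div_const_pow_of_one_lt 1 (by norm_num : (1 : ℝ) < 2)
    have h2 : Tendsto (fun n : ℕ => (n : ℝ) ^ 1 / 2 ^ n) atTop (𝓝[>] 0) := by
      refine tendsto_nhdsWithin_iff.2 ⟨this, ?_⟩
      filter_upwards [eventually_gt_atTop 0] with n hn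
      have : (0 : ℝ) < n := by exact_mod_cast hn
      show (0 : ℝ) < (n : ℝ) ^ 1 / 2 ^ n
      positivity
    refine h2.inv_tendsto_nhdsGT_zero.congr fun x => ?_
    simp
  obtain ⟨k2, hk2⟩ := (h1.eventually_ge_atTop (R / b)).exists_forall_of_atTop
  refine ⟨max (max kc 1) k2, fun k hkk => ?_⟩
  have h3 := hk k (le_trans (le_trans (le_max_left _ _) (le_max_left _ _)) hkk)
  have h4 := hk2 k (le_trans (le_max_right _ _) hkk)
  have hk1 : 1 ≤ k := le_trans (le_trans (le_max_right _ _) (le_max_left _ _)) hkk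
  have hk0 : (0 : ℝ) < k := by exact_mod_cast hk1
  have h5 : ∑ p ∈ QB k, 1 / (p : ℝ) ≤ (QB k).card / 2 ^ k := by
    calc ∑ p ∈ QB k, 1 / (p : ℝ) ≤ ∑ p ∈ QB k, 1 / (2 : ℝ) ^ k := by
          refine sum_le_sum fun p hp => ?_
          rw [mem_QB] at hp
          apply one_div_le_one_div_of_le (by positivity)
          exact_mod_cast hp.1.1.le
      _ = _ := by rw [sum_const, nsmul_eq_mul, mul_one_div]
  have h6 : b / k ≤ (QB k).card / 2 ^ k := h3.trans h5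
  rw [div_le_div_iff₀ hk0 (by positivity)] at h6
  rw [div_le_iff₀ hb, pow_one] at h4
  calc R ≤ 2 ^ k / k * b := h4
    _ = b * 2 ^ k / k := by ring
    _ ≤ _ := by rw [div_le_iff₀ hk0]; exact h6

/-- blocks of length `r` -/
lemma blowup (A B : Finset ℕ) (r : ℕ) (hr : 0 < r) (h : ∀ m ∈ A, ∀ j < r, r * m + j ∈ B) : r * A.card ≤ B.card := by
  have h1 : (A ×ˢ range r).card ≤ B.card := by
    refine card_le_card_of_injOn (fun x => r * x.1 + x.2) ?_ ?_
    · intro x hx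
      rw [mem_coe, mem_product, mem_range] at hx
      exact h x.1 hx.1 x.2 hx.2
    · intro x hx y hy hxy
      rw [mem_coe, mem_product, mem_range] at hx hy
      simp only at hxy
      have e1 : x.1 = y.1 := by
        have a1 : (r * x.1 + x.2) / r = x.1 := by rw [Nat.mul_add_div hr, Nat.div_eq_of_lt hx.2, Nat.add_zero]
        have a2 : (r * y.1 + y.2) / r = y.1 := by rw [Nat.mul_add_div hr, Nat.div_eq_of_lt hy.2, Nat.add_zero]
        rw [← a1, ← a2, hxy]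
      ext
      · exact e1
      · rw [e1] at hxy; omega
  rw [card_product, card_range] at h1
  rw [mul_comm]; exact h1

/-- double counting -/
lemma double_count {ι κ : Type} (X : Finset ι) (Y : Finset κ) (q : ι → κ → Prop) [∀ x, DecidablePred (q x)]
    [∀ y, DecidablePred fun x => q x y] :
    ∑ x ∈ X, ((Y.filter (q x)).card : ℝ) = ∑ y ∈ Y, ((X.filter (fun x => q x y)).card : ℝ) := by
  have b1 : ∀ x, ((Y.filter (q x)).card : ℝ) = ∑ y ∈ Y, if q x y then (1 : ℝ) else 0 := by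
    intro x; rw [card_filter]; push_cast; rfl
  have b2 : ∀ y, ((X.filter (fun x => q x y)).card : ℝ) = ∑ x ∈ X, if q x y then (1 : ℝ) else 0 := by
    intro y; rw [card_filter]; push_cast; rfl
  rw [sum_congr rfl fun x _ => b1 x, sum_congr rfl fun y _ => b2 y]
  exact sum_comm

open Classical in
lemma sub_count {ι κ : Type} (X : Finset ι) (Y : Finset κ) (F : ι → Finset κ) (hF : ∀ x, F x ⊆ Y) :
    ∑ x ∈ X, ((F x).card : ℝ) = ∑ y ∈ Y, ((X.filter (fun x => y ∈ F x)).card : ℝ) := by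
  rw [← double_count X Y (fun x y => y ∈ F x)]
  refine sum_congr rfl fun x _ => ?_
  congr 2
  refine Finset.ext fun y => ⟨fun h => mem_filter.2 ⟨hF x h, h⟩, fun h => (mem_filter.1 h).2⟩

open Classical in
/-- many windows of length `h` at which dilated phases correlate -/
lemma density {f : ℕ → ℂ} (hf : ∀ n, ‖f n‖ ≤ 1) (P : ℕ → ℝ[X]) {ε : ℝ} (hε : 0 < ε) (hε1 : ε ≤ 1) {H s h N k : ℕ}
    (S : Finset ℕ) (hSs : ∀ n ∈ S, (n + s) % H = 0) (hSN : ∀ n ∈ S, n ≤ N) (hS : ε * N / H ≤ (S.card : ℝ))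
    (hh : 0 < h) (hHk : 64 * h * 2 ^ k ≤ ε * H) (hHN : H ≤ N)
    (hk : 3 / 8 * (S.card : ℝ) * ((QB k).card : ℝ) ≤
      ∑ p ∈ QB k, ((S.filter (fun n => ε / 2 * ((H / p : ℕ) : ℝ) ≤ ‖W f (dil p (P n)) (n / p) (H / p)‖)).card : ℝ)) :
    ε ^ 2 / 512 * ((2 * N / 2 ^ k + 1 : ℕ) : ℝ) * ((QB k).card : ℝ) ≤
      ∑ m ∈ range (2 * N / 2 ^ k + 1), (((QB k).filter (fun p => bs H s (p * m) ∈ S ∧
        bs H s (p * m + (p - 1)) = bs H s (p * m) ∧ ε / 8 * h ≤ ‖W f (dil p (P (bs H s (p * m)))) m h‖)).card : ℝ) := by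
  obtain ⟨M, hM⟩ : ∃ M : ℕ, M = 2 * N / 2 ^ k + 1 := ⟨_, rfl⟩
  rw [← hM]
  have hhr : (1 : ℝ) ≤ h := by exact_mod_cast hh
  have hy : (0 : ℝ) < (2 : ℝ) ^ k := by positivity
  have hy1 : (1 : ℝ) ≤ (2 : ℝ) ^ k := one_le_pow₀ (by norm_num)
  have hHr : 64 * (2 : ℝ) ^ k ≤ H := by
    have h1 : 64 * 2 ^ k ≤ 64 * (h : ℝ) * 2 ^ k := by nlinarith
    have h2 : ε * H ≤ 1 * (H : ℝ) := mul_le_mul_of_nonneg_right hε1 (Nat.cast_nonneg _)
    linarith
  have hH0 : (0 : ℝ) < H := by linarith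
  have hHpos : 0 < H := by exact_mod_cast hH0
  have hHN' : (H : ℝ) ≤ N := by exact_mod_cast hHN
  -- exchange the sums
  have e1 : ∑ m ∈ range M, (((QB k).filter (fun p => bs H s (p * m) ∈ S ∧
        bs H s (p * m + (p - 1)) = bs H s (p * m) ∧ ε / 8 * h ≤ ‖W f (dil p (P (bs H s (p * m)))) m h‖)).card : ℝ) =
      ∑ p ∈ QB k, (((range M).filter (fun m => bs H s (p * m) ∈ S ∧
        bs H s (p * m + (p - 1)) = bs H s (p * m) ∧ ε / 8 * h ≤ ‖W f (dil p (P (bs H s (p * m)))) m h‖)).card : ℝ) := by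
    exact double_count (range M) (QB k) (fun m p => bs H s (p * m) ∈ S ∧
        bs H s (p * m + (p - 1)) = bs H s (p * m) ∧ ε / 8 * h ≤ ‖W f (dil p (P (bs H s (p * m)))) m h‖)
  rw [e1]
  -- one prime
  have h1 : ∀ p ∈ QB k, ε / 16 * (H / (4 * 2 ^ k)) *
      ((S.filter (fun n => ε / 2 * ((H / p : ℕ) : ℝ) ≤ ‖W f (dil p (P n)) (n / p) (H / p)‖)).card : ℝ) ≤
      (((range M).filter (fun m => bs H s (p * m) ∈ S ∧
        bs H s (p * m + (p - 1)) = bs H s (p * m) ∧ ε / 8 * h ≤ ‖W f (dil p (P (bs H s (p * m)))) m h‖)).card : ℝ) := by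
    intro p hp
    rw [mem_QB] at hp
    have hp0 : 0 < p := hp.2.pos
    have hpr : (0 : ℝ) < p := by exact_mod_cast hp0
    have hp2 : (p : ℝ) ≤ 2 * 2 ^ k := by
      have : (p : ℝ) ≤ ((2 ^ (k + 1) : ℕ) : ℝ) := by exact_mod_cast hp.1.2
      rw [pow_succ] at this
      push_cast at this
      linarith
    have hL : (H : ℝ) / (4 * 2 ^ k) ≤ ((H / p : ℕ) : ℝ) := by
      have a1 : (H : ℝ) < p * (((H / p : ℕ) : ℝ) + 1) := by
        have := Nat.lt_mul_div_succ H hp0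
        exact_mod_cast this
      have a2 : (H : ℝ) < 2 * 2 ^ k * (((H / p : ℕ) : ℝ) + 1) :=
        a1.trans_le (mul_le_mul_of_nonneg_right hp2 (by positivity))
      rw [div_le_iff₀ (by positivity)]
      nlinarith
    have hL2 : 16 * (h : ℝ) ≤ ε * ((H / p : ℕ) : ℝ) := by
      have a1 : 16 * (h : ℝ) = 64 * h * 2 ^ k / (4 * 2 ^ k) := by field_simp; norm_num
      rw [a1]
      calc 64 * (h : ℝ) * 2 ^ k / (4 * 2 ^ k) ≤ ε * H / (4 * 2 ^ k) := div_le_div_of_nonneg_right hHk (by positivity)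
        _ = ε * (H / (4 * 2 ^ k)) := by ring
        _ ≤ _ := mul_le_mul_of_nonneg_left hL hε.le
    set Sp := S.filter (fun n => ε / 2 * ((H / p : ℕ) : ℝ) ≤ ‖W f (dil p (P n)) (n / p) (H / p)‖) with hSp
    have h2 : ∀ n ∈ Sp, ε / 16 * (H / (4 * 2 ^ k)) ≤ (((range M).filter (fun m => bs H s (p * m) = n ∧
        bs H s (p * m + (p - 1)) = n ∧ ε / 8 * h ≤ ‖W f (dil p (P n)) m h‖)).card : ℝ) := by
      intro n hn
      rw [hSp, mem_filter] at hn
      refine le_trans (mul_le_mul_of_nonneg_left hL (by positivity)) ?_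
      refine fiber hf (dil p (P n)) hε hε1 (hSs n hn.1) hp0 hh hL2 ?_ hn.2
      have a1 : n / p + H / p ≤ 2 * N / p := by
        have b1 : n / p + H / p ≤ (n + H) / p := Nat.div_add_div_le_add_div
        exact b1.trans (Nat.div_le_div_right (by have := hSN n hn.1; omega))
      have a2 : 2 * N / p ≤ 2 * N / 2 ^ k := Nat.div_le_div_left hp.1.1.le (by positivity)
      omega
    have h3 : ∑ n ∈ Sp, (((range M).filter (fun m => bs H s (p * m) = n ∧
        bs H s (p * m + (p - 1)) = n ∧ ε / 8 * h ≤ ‖W f (dil p (P n)) m h‖)).card : ℝ) ≤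
        (((range M).filter (fun m => bs H s (p * m) ∈ S ∧
        bs H s (p * m + (p - 1)) = bs H s (p * m) ∧ ε / 8 * h ≤ ‖W f (dil p (P (bs H s (p * m)))) m h‖)).card : ℝ) := by
      rw [← Nat.cast_sum, ← card_biUnion]
      · refine Nat.cast_le.2 (card_le_card ?_)
        intro m hm
        rw [mem_biUnion] at hm
        obtain ⟨n, hn, hm⟩ := hm
        rw [mem_filter] at hm ⊢
        obtain ⟨m1, m2, m3, m4⟩ := hm
        rw [m2]
        exact ⟨m1, (mem_filter.1 hn).1, m3, m4⟩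
      · intro a _ b _ hab
        show Disjoint _ _
        rw [disjoint_left]
        intro x hx hy'
        rw [mem_filter] at hx hy'
        exact hab (hx.2.1.symm.trans hy'.2.1)
    refine le_trans ?_ h3
    calc ε / 16 * (H / (4 * 2 ^ k)) * (Sp.card : ℝ) = ∑ n ∈ Sp, ε / 16 * (H / (4 * 2 ^ k)) := by
          rw [sum_const, nsmul_eq_mul]; ring
      _ ≤ _ := sum_le_sum h2
  have h2 : ε / 16 * (H / (4 * 2 ^ k)) * (3 / 8 * (S.card : ℝ) * ((QB k).card : ℝ)) ≤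
      ∑ p ∈ QB k, (((range M).filter (fun m => bs H s (p * m) ∈ S ∧
        bs H s (p * m + (p - 1)) = bs H s (p * m) ∧ ε / 8 * h ≤ ‖W f (dil p (P (bs H s (p * m)))) m h‖)).card : ℝ) := by
    refine le_trans (mul_le_mul_of_nonneg_left hk (by positivity)) ?_
    rw [mul_sum]
    exact sum_le_sum h1
  refine le_trans ?_ h2
  have h3 : (M : ℝ) ≤ 3 * N / 2 ^ k := by
    have a1 : ((2 * N / 2 ^ k : ℕ) : ℝ) ≤ 2 * N / 2 ^ k := by
      have := @Nat.cast_div_le ℝ _ _ _ (2 * N) (2 ^ k)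
      push_cast at this
      exact this
    have a2 : (1 : ℝ) ≤ N / 2 ^ k := by
      rw [le_div_iff₀ hy]; linarith
    rw [hM]
    push_cast
    have e : 3 * (N : ℝ) / 2 ^ k = 2 * N / 2 ^ k + N / 2 ^ k := by ring
    rw [e]
    linarith
  calc ε ^ 2 / 512 * (M : ℝ) * ((QB k).card : ℝ) ≤ ε ^ 2 / 512 * (3 * N / 2 ^ k) * ((QB k).card : ℝ) := by gcongr
    _ = ε / 16 * (H / (4 * 2 ^ k)) * (3 / 8 * (ε * N / H) * ((QB k).card : ℝ)) := by field_simp; ring
    _ ≤ ε / 16 * (H / (4 * 2 ^ k)) * (3 / 8 * (S.card : ℝ) * ((QB k).card : ℝ)) := by gcongr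

end Pool.Agent.Run7.h172.Npp
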