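import Pool.Agent.Helper44K9.FU.Stm

/-!
# Project NPP (helper172): natural averages, polynomial phases, leading coefficient in a null set; all multiplicative
functions; characterisation of the sets

THEOREM.  Let `d ≥ 1` and let `E` be a compact subset of `ℝ/ℤ`.  Then
`∑_{n ≤ N} sup_P |∑_{h ≤ H} f(n+h) e(P(n+h))| ≤ ε H N` for all `N ≥ H ≥ H₀(E, d, ε)` and ALL multiplicative `f`, `|f| ≤ 1`
(supremum over the real polynomials of degree at most `d` with coefficient of `x^d` in `E` modulo one), if and only if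
`E` has measure zero and contains no rational point.
Start results (MP_663568_nt.PolynomialPhases, ...) have this direction only for LOGARITHMIC averages.
Definitions `W, Mul1, Rel, dil` and the proved statements `S_PUSH (push tk)`, `S_BES2 (bes2 wr2)`, `S_WR2 (wr2)`, `S_PW
(pw)`, `S_TRIG2 (trig2)`, `S_KAP (kap)`, `S_CHB (chb)` are those of `Pool/Agent/Helper44K9/FU`.

Outline of the proof.  Windows of length `H`; if many windows have a phase `P_n` which correlates with `f`, go down to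
windows of length about `H/y` for the primes `p ∈ (y, 2y]`, `y = 2^k` a suitable scale: there the phases `P_n(p x)` and
`P_{n'}(q x)`, `n/p = n'/q`, correlate with the same function, so many pairs are related (`p^d α_n ~ q^d α_{n'}`).  For
`z = n q = n' p` this is a relation between the frequencies at `z/q` and at `z/p`: [PD].  [RD]: hence
`α_{z/p} ~ p^d β` for some `β` and a positive proportion of the primes `p` of the block.  [LD]: impossible if `E` is null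
and has no rational points.  [SR], [SM]: sharpness.
-/

set_option autoImplicit false

namespace Pool.Agent.Run7.h172.Npp

open Finset Polynomial MeasureTheory Filter Topology
open Pool.Agent.H807R2.Dav (ee)
open Pool.Agent.Helper44K9.FU (W Mul1 Rel dil)

/-- the primes in `(2^k, 2^(k+1)]` -/
def QB (k : ℕ) : Finset ℕ := (Ioc (2 ^ k) (2 ^ (k + 1))).filter Nat.Prime

/-- [RD] (150 lines; compare `S_R`, proved as `sR` in `Run7/h824/Nls/GR.lean`, the case `d = 1`, `K = 1`.)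
Common root.  `y = 2^k`, `θ = p1^d α_{p0} - p0^d α_{p1}`.  For `p ∈ W` there are `m1, m2 ≤ K`, integers `a1, a2` with
`m1 (p0^d α_p - p^d α_{p0}) = a1 + O(K/h^d)`, `m2 (p1^d α_p - p^d α_{p1}) = a2 + O(K/h^d)`.  Multiply by `m2 p1^d`,
`m1 p0^d`, subtract: `m p^d θ = k' + O(2^(d+1) K^2 y^d / h^d)`, `m = m1 m2 ≤ K^2`.  For two different `p, p' ∈ W` the
fractions `k'/(m p^d)`, `k''/(m' p'^d)` are at distance less than `1/(K^4 (2y)^(2d))`, so they are equal (`h ≥ T`), so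
`p^d ∣ k' m'`, and `p ∤ m'` (`m' ≤ K^2 < p`), so `θ = j/m0 + δ`, `m0 = m ≤ K^2`, `|δ| ≤ 2^(d+1) K^2 / h^d`.
`β := (α_{p0} + t)/p0^d` with `t` an integer such that `p0^d ∣ j + m0 p1^d t` (`m0 p1^d` is prime to `p0`): then
`p0^d β - α_{p0} = t`, `p1^d β - α_{p1} = (θ + p1^d t)/p0^d = (integer)/m0 + δ/p0^d`.
For `p ∈ W` and `x = p^d β - α_p`: `m1 p0^d x` is an integer up to `K/h^d`, `m2 m0 p1^d x` is an integer up to
`(K^3 + 2^(2d+1) K^5)/h^d`; the fractions with denominators `m1 p0^d` and `m2 m0 p1^d` agree (`h ≥ T`), so `p0^d` divides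
the first numerator (`m2 m0 ≤ K^3 < p0`), and `|m1 x - a''| ≤ K / (h^d p0^d)`. -/
def S_RD : Prop := ∀ d K k1 : ℕ, 1 ≤ d → 1 ≤ K → ∃ T : ℕ, ∀ h ≥ T, ∀ k < k1, K ^ 3 ≤ 2 ^ k →
  ∀ (α : ℕ → ℝ) (p0 p1 : ℕ), p0 ∈ QB k → p1 ∈ QB k → p0 ≠ p1 → ∀ W ⊆ QB k, p0 ∉ W → p1 ∉ W → 2 ≤ W.card →
  (∀ p ∈ W, Rel d K h ((p0 : ℝ) ^ d * α p) ((p : ℝ) ^ d * α p0) ∧
    Rel d K h ((p1 : ℝ) ^ d * α p) ((p : ℝ) ^ d * α p1)) →
  ∃ β : ℝ, ∀ p ∈ W, Rel d K h ((p : ℝ) ^ d * β) (α p)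

/-- [LD] (`S_LD1 → S_LD2 → S_KAP → S_CHB → S_LD`, 100 lines, if [LD1], [LD2] are done by others.)  Let `E' = ⋃_{m ≤ K} ⋃_j (E + j/m)`.
Step 1.  As in `Helper44K9/FU/Eq2.lean` (proof of `eq2`, the estimate `hblk` for one block): with `S_TRIG2`, `c₁` small,
if `≥ c #QB k` of the `p ∈ QB k` have `p^d β` near `E'`, then one of finitely many Weyl sums over primes is large and by
`S_PW` there is `q ≤ Q = Q(E, K, c)` with `|q β - a| ≤ Q / 2^(k d)`: `β = a/q + θ`, `|θ| ≤ Q/2^(kd)`.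
Step 2.  `p^d β = p^d a/q + p^d θ`, so `p^d θ` is near `E'' = ⋃_{m ≤ K Q} ⋃_j (E + j/m)`, again compact, null, without
rational points; let `κ > 0` be its distance from `0` (`S_KAP` with `K Q` in place of `Q`).  If `|θ| 2^((k+1) d) ≤ κ/2`
this is impossible for a single `p` (`τ` small).  Otherwise `l = κ / 2^(d+1) ≤ |θ| 2^(kd) ≤ Q`: cover `E''` by finitely
many open arcs of total length at most `ω`; `p^d |θ| ∈ [0, 2^d Q]`, so there are at most `2^d Q + 2` integer shifts of each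
arc; for an interval of length `λ` the `t ∈ (2^k, 2^(k+1)]` with `t^d |θ|` in the interval form an interval of length at
most `λ 2^k / l`; `∑ Λ(n)` over it is at most `λ 2^k / l + 1 + ε' 2^(k+1)` (`S_PI`, proved as `pi_holds` in
`Run7/h957/Nls/L.lean`, or `Pool.Agent.H373R2.T7.lam_ap 0 1`).  The total is `< c' 2^k` if `ω`, then `ε'` are small, and
`#QB k ≥ b 2^k / k` (`S_CHB`). -/
def S_LD : Prop := ∀ d K : ℕ, 1 ≤ d → 1 ≤ K → ∀ c : ℝ, 0 < c → ∀ E : Set UnitAddCircle, IsCompact E → volume E = 0 →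
  (∀ x ∈ E, addOrderOf x = 0) → ∃ τ : ℝ, 0 < τ ∧ ∃ k0 : ℕ, ∀ k ≥ k0, ∀ β : ℝ, ∀ W ⊆ QB k,
  (∀ p ∈ W, ∃ γ : ℝ, (γ : UnitAddCircle) ∈ E ∧ ∃ m : ℕ, 1 ≤ m ∧ m ≤ K ∧ ∃ a : ℤ,
    |m * (γ - (p : ℝ) ^ d * β) - a| ≤ τ) → (W.card : ℝ) < c * ((QB k).card : ℝ)

/-- [LD1] (150 lines) Step 1 of [LD]. -/
def S_LD1 : Prop := ∀ d K : ℕ, 1 ≤ d → 1 ≤ K → ∀ c : ℝ, 0 < c → ∀ E : Set UnitAddCircle, IsCompact E → volume E = 0 →
  (∀ x ∈ E, addOrderOf x = 0) → ∃ Q : ℕ, 1 ≤ Q ∧ ∃ τ : ℝ, 0 < τ ∧ ∃ k0 : ℕ, ∀ k ≥ k0, ∀ β : ℝ, ∀ W ⊆ QB k,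
  (∀ p ∈ W, ∃ γ : ℝ, (γ : UnitAddCircle) ∈ E ∧ ∃ m : ℕ, 1 ≤ m ∧ m ≤ K ∧ ∃ a : ℤ,
    |m * (γ - (p : ℝ) ^ d * β) - a| ≤ τ) → c * ((QB k).card : ℝ) ≤ (W.card : ℝ) →
  ∃ q : ℕ, 1 ≤ q ∧ q ≤ Q ∧ ∃ a : ℤ, |q * β - a| ≤ Q / ((2 : ℝ) ^ k) ^ d

/-- [LD2] (150 lines) The intermediate range in step 2 of [LD]: `E` any compact null set, `l ≤ |θ| 2^(kd) ≤ Q`. -/
def S_LD2 : Prop := ∀ d : ℕ, 1 ≤ d → ∀ c l Q : ℝ, 0 < c → 0 < l → ∀ E : Set UnitAddCircle, IsCompact E → volume E = 0 →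
  ∃ τ : ℝ, 0 < τ ∧ ∃ k0 : ℕ, ∀ k ≥ k0, ∀ θ : ℝ, l ≤ |θ| * ((2 : ℝ) ^ k) ^ d → |θ| * ((2 : ℝ) ^ k) ^ d ≤ Q →
  ∀ W ⊆ QB k, (∀ p ∈ W, ∃ x ∈ E, ‖(((p : ℝ) ^ d * θ : ℝ) : UnitAddCircle) - x‖ ≤ τ) →
  (W.card : ℝ) < c * ((QB k).card : ℝ)

/-- [PD] (helper172) -/
def S_PD : Prop := ∀ d : ℕ, 1 ≤ d → ∀ ε : ℝ, 0 < ε → ∃ c : ℝ, 0 < c ∧ ∃ K : ℕ, 1 ≤ K ∧ ∀ k0 : ℕ, ∃ k1 : ℕ, ∀ T : ℕ,
  ∃ H N0 : ℕ, 1 ≤ H ∧ ∀ N ≥ N0, ∀ f : ℕ → ℂ, Mul1 f → ∀ (P : ℕ → ℝ[X]) (B : Finset ℕ), B ⊆ Icc 1 N →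
  ε * N ≤ (B.card : ℝ) → (∀ n ∈ B, (P n).natDegree ≤ d ∧ ε * H ≤ ‖W f (P n) n H‖) →
  ∃ k h : ℕ, k0 ≤ k ∧ k < k1 ∧ T ≤ h ∧ ∃ (α : ℕ → ℝ) (p0 p1 : ℕ), p0 ∈ QB k ∧ p1 ∈ QB k ∧ p0 ≠ p1 ∧
    ∃ W ⊆ QB k, p0 ∉ W ∧ p1 ∉ W ∧ c * ((QB k).card : ℝ) ≤ (W.card : ℝ) ∧
    (∀ p ∈ W, ∃ n ∈ B, α p = (P n).coeff d) ∧
    ∀ p ∈ W, Rel d K h ((p0 : ℝ) ^ d * α p) ((p : ℝ) ^ d * α p0) ∧ Rel d K h ((p1 : ℝ) ^ d * α p) ((p : ℝ) ^ d * α p1)

/-- the supremum over the real polynomials of degree at most `d` with coefficient of `x ^ d` in `E` modulo one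
(as `wSup` in `Helper44K9/FU/Fin.lean`) -/
noncomputable def nSup (d : ℕ) (E : Set UnitAddCircle) (f : ℕ → ℂ) (n H : ℕ) : ℝ :=
  ⨆ P : {P : ℝ[X] // P.natDegree ≤ d ∧ ((P.coeff d : ℝ) : UnitAddCircle) ∈ E}, ‖W f P.1 n H‖

/-- the property of the theorem -/
def Good (d : ℕ) (E : Set UnitAddCircle) : Prop := ∀ ε : ℝ, 0 < ε → ∃ H₀ : ℕ, ∀ f : ℕ → ℂ, Mul1 f → ∀ N H : ℕ,
  H₀ ≤ H → H ≤ N → ∑ n ∈ Icc 1 N, nSup d E f n H ≤ ε * H * N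

/-- [SR] (100 lines.)  Sharpness, rational points.  `x = a/q`, `P = (a/q) X^d`.  For some Dirichlet character `χ` modulo `q`
the complete sum `∑_{m mod q} χ(m) e(P(m))` is not zero: otherwise sum over `χ` and get `φ(q) e(P(1)) = 0`
(`DirichletCharacter.sum_characters_eq` or so).  Then with `f = χ` (`f 0 = χ 0`; multiplicative) each window has
`|W f P n H| ≥ s H / (2 q)`, `s` the absolute value of the complete sum, `H ≥ H₁`. -/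
def S_SR : Prop := ∀ d : ℕ, 1 ≤ d → ∀ E : Set UnitAddCircle, (∃ x ∈ E, addOrderOf x ≠ 0) → ¬ Good d E

/-- [SM] (200 lines.)  Sharpness, sets of positive measure.  `f(n) = n^{iT}` (`f 0 = 0`), `T = 2 π d τ N^d`, `τ ∈ [1, 2]`.
For `N/2 ≤ n ≤ N` and `h ≤ H` the Taylor polynomial of degree `d` of `-(T/2π) log x` at `n` has coefficient of `x^d` equal to
`(-1)^d τ (N/n)^d`, and `f(n+h) e(P(n+h)) = 1 + O(N^d H^(d+1)/n^(d+1))`, so `|W f P n H| ≥ H/2` if `N ≥ N₁(H)`.  The average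
over `τ ∈ [1, 2]` of `#{N/2 ≤ n ≤ N : (-1)^d τ (N/n)^d ∈ E mod 1}` is at least `N |E| / 4` (for fixed `n` the number
`τ (N/n)^d` runs through an interval of length `λ ≥ 1`, so the measure of the good `τ` is at least
`⌊λ⌋ |E| / λ ≥ |E|/2`).  So some `τ` is good: `∑_{n ≤ N} nSup ≥ (|E|/4) N H / 2`. -/
def S_SM : Prop := ∀ d : ℕ, 1 ≤ d → ∀ E : Set UnitAddCircle, MeasurableSet E → volume E ≠ 0 → ¬ Good d E

end Pool.Agent.Run7.h172.Npp
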